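import Pool.Agent.Lib.MP_1d263a_an.GR.Lin

/-!
# Carpet project: level sets reach the boundary
-/

noncomputable section

namespace CarpetPI.Gr

section graph

variable {ι V : Type*}

/-- two vertices are the ends of an edge in `E` or in `Z` -/
def GAdj (E : Finset ι) (Z : Set ι) (l r : ι → V) (a b : V) : Prop :=
  ∃ e, (e ∈ E ∨ e ∈ Z) ∧ ((l e = a ∧ r e = b) ∨ (l e = b ∧ r e = a))

/-- the currents `J` have the sign of the differences of `ψ` -/
structure Sgn (E : Finset ι) (l r : ι → V) (J : ι → ℝ) (ψ : V → ℝ) : Prop where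
  pos : ∀ e ∈ E, ψ (r e) < ψ (l e) → 0 < J e
  neg : ∀ e ∈ E, ψ (l e) < ψ (r e) → J e < 0

/-- the currents `J` are divergence free at the vertices in `U` -/
def Div (E : Finset ι) (Z : Set ι) (l r : ι → V) (J : ι → ℝ) (U : Set V) : Prop :=
  ∀ ϕ : V → ℝ, (∀ x, x ∉ U → ϕ x = 0) → Nj Z l r ϕ → ∑ e ∈ E, J e * (ϕ (l e) - ϕ (r e)) = 0

/-- a set `C ⊆ U` on which `ψ ≥ M` and whose outer neighbours have `ψ < M` has no outer neighbours -/
theorem no_exit {E : Finset ι} {Z : Set ι} {l r : ι → V} {J : ι → ℝ} {ψ : V → ℝ} {U C : Set V}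
    {M : ℝ} (hs : Sgn E l r J ψ) (hd : Div E Z l r J U) (hC : C ⊆ U) (hM : ∀ x ∈ C, M ≤ ψ x)
    (hZ : ∀ e ∈ Z, (l e ∈ C ↔ r e ∈ C))
    (hout : ∀ e ∈ E, (l e ∈ C → r e ∉ C → ψ (r e) < M) ∧ (r e ∈ C → l e ∉ C → ψ (l e) < M)) :
    ∀ e ∈ E, (l e ∈ C ↔ r e ∈ C) := by
  classical
  have h := hd (fun x => if x ∈ C then 1 else 0) (fun x hx => by
    rw [if_neg]; exact fun hh => hx (hC hh)) (fun e he => by simp only [hZ e he])
  have hnn : ∀ e ∈ E, 0 ≤ J e * ((if l e ∈ C then (1 : ℝ) else 0) - (if r e ∈ C then (1 : ℝ) else 0)) := by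
    intro e he
    by_cases h1 : l e ∈ C <;> by_cases h2 : r e ∈ C
    · simp [h1, h2]
    · have h3 := (hout e he).1 h1 h2
      have h4 := hs.pos e he (h3.trans_le (hM _ h1))
      simp [h1, h2, h4.le]
    · have h3 := (hout e he).2 h2 h1
      have h4 := hs.neg e he (h3.trans_le (hM _ h2))
      simp [h1, h2, h4.le]
    · simp [h1, h2]
  have h0 := (Finset.sum_eq_zero_iff_of_nonneg hnn).1 h
  intro e he
  have h1 := h0 e he
  constructor
  · intro h2
    by_contra h3
    have h4 := hs.pos e he (((hout e he).1 h2 h3).trans_le (hM _ h2))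
    simp [h2, h3] at h1
    linarith
  · intro h2
    by_contra h3
    have h4 := hs.neg e he (((hout e he).2 h2 h3).trans_le (hM _ h2))
    simp [h2, h3] at h1
    linarith

/-- **The components of `{ψ ≥ M}` reach the complement of `U`.** -/
theorem exists_exit {E : Finset ι} {Z : Set ι} {l r : ι → V} {J : ι → ℝ} {ψ : V → ℝ} {U : Set V}
    {M : ℝ} (hs : Sgn E l r J ψ) (hd : Div E Z l r J U) (hψZ : Nj Z l r ψ) {x : V} (hx : M ≤ ψ x)
    (hconn : ∃ y, y ∉ U ∧ Relation.ReflTransGen (GAdj E Z l r) x y) :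
    ∃ y, y ∉ U ∧ M ≤ ψ y ∧
      Relation.ReflTransGen (fun a b => GAdj E Z l r a b ∧ M ≤ ψ a ∧ M ≤ ψ b) x y := by
  by_contra hcon
  push Not at hcon
  set C : Set V := {y | M ≤ ψ y ∧
    Relation.ReflTransGen (fun a b => GAdj E Z l r a b ∧ M ≤ ψ a ∧ M ≤ ψ b) x y} with hCdef
  have hCU : C ⊆ U := by
    intro y hy
    by_contra hyU
    exact hcon y hyU hy.1 hy.2
  have hout : ∀ a ∈ C, ∀ b, GAdj E Z l r a b → b ∉ C → ψ b < M := by
    intro a ha b hab hb
    by_contra hh
    rw [not_lt] at hh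
    exact hb ⟨hh, ha.2.tail ⟨hab, ha.1, hh⟩⟩
  have hZ : ∀ e ∈ Z, (l e ∈ C ↔ r e ∈ C) := by
    intro e he
    constructor
    · intro h1
      by_contra h2
      have := hout _ h1 _ ⟨e, Or.inr he, Or.inl ⟨rfl, rfl⟩⟩ h2
      have h3 := h1.1
      rw [hψZ e he] at h3
      linarith
    · intro h1
      by_contra h2
      have := hout _ h1 _ ⟨e, Or.inr he, Or.inr ⟨rfl, rfl⟩⟩ h2
      have h3 := h1.1
      rw [← hψZ e he] at h3
      linarith
  have key := no_exit (C := C) (M := M) hs hd hCU (fun y hy => hy.1) hZ (fun e he =>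
    ⟨fun h1 h2 => hout _ h1 _ ⟨e, Or.inl he, Or.inl ⟨rfl, rfl⟩⟩ h2,
      fun h1 h2 => hout _ h1 _ ⟨e, Or.inl he, Or.inr ⟨rfl, rfl⟩⟩ h2⟩)
  have key' : ∀ e, (e ∈ E ∨ e ∈ Z) → (l e ∈ C ↔ r e ∈ C) := by
    intro e he
    rcases he with he | he
    · exact key e he
    · exact hZ e he
  have hclosed : ∀ y, Relation.ReflTransGen (GAdj E Z l r) x y → y ∈ C := by
    intro y hxy
    induction hxy with
    | refl => exact ⟨hx, Relation.ReflTransGen.refl⟩
    | tail _ h2 ih =>
      obtain ⟨e, he, h3 | h3⟩ := h2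
      · rw [← h3.2]; exact (key' e he).1 (h3.1 ▸ ih)
      · rw [← h3.1]; exact (key' e he).2 (h3.2 ▸ ih)
  obtain ⟨y, hyU, hxy⟩ := hconn
  exact hyU (hCU (hclosed y hxy))

theorem phi_strict {q : ℝ} (hq : 1 < q) {a b : ℝ} (hab : b < a) : phi q b < phi q a := by
  rcases le_total 0 b with hb | hb
  · rw [phi_of_nonneg hq hb, phi_of_nonneg hq (hb.trans hab.le)]
    exact Real.rpow_lt_rpow hb hab (by linarith)
  rcases le_total 0 a with ha | ha
  · rw [phi_of_nonneg hq ha, phi_of_nonpos hq hb]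
    have h1 := Real.rpow_nonneg ha (q - 1)
    have h2 := Real.rpow_nonneg (show 0 ≤ -b by linarith) (q - 1)
    rcases ha.eq_or_lt with h0 | h0
    · have h3 := Real.rpow_pos_of_pos (show 0 < -b by linarith) (q - 1)
      linarith
    · have h3 := Real.rpow_pos_of_pos h0 (q - 1)
      linarith
  · rw [phi_of_nonpos hq ha, phi_of_nonpos hq hb]
    have := Real.rpow_lt_rpow (show 0 ≤ -a by linarith) (show -a < -b by linarith)
      (show 0 < q - 1 by linarith)
    linarith

/-- linear network: the currents have the right sign -/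
theorem sgn_cw {q : ℝ} (hq : 2 ≤ q) (t : ℝ) (E : Finset ι) (l r : ι → V) (w w' : V → ℝ) :
    Sgn E l r (fun e => cw q t l r w w' e * ((w (l e) - t * w' (l e)) - (w (r e) - t * w' (r e))))
      (fun x => w x - t * w' x) where
  pos := fun e _ h => mul_pos (cw_pos hq t l r w w' e h.ne') (by linarith)
  neg := fun e _ h => mul_neg_of_pos_of_neg (cw_pos hq t l r w w' e h.ne) (by linarith)

theorem LHar.div {E : Finset ι} {Z : Set ι} {l r : ι → V} {c : ι → ℝ} {ψ : V → ℝ} {U : Set V}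
    (h : LHar E Z l r c ψ U) : Div E Z l r (fun e => c e * (ψ (l e) - ψ (r e))) U := h

/-- nonlinear network: the difference of two solutions -/
theorem sgn_diff {q : ℝ} (hq : 1 < q) (E : Finset ι) (l r : ι → V) (u u' : V → ℝ) :
    Sgn E l r (fun e => phi q (u (l e) - u (r e)) - phi q (u' (l e) - u' (r e)))
      (fun x => u x - u' x) where
  pos := fun e _ h => by
    have := phi_strict hq (show u' (l e) - u' (r e) < u (l e) - u (r e) by linarith)
    linarith
  neg := fun e _ h => by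
    have := phi_strict hq (show u (l e) - u (r e) < u' (l e) - u' (r e) by linarith)
    linarith

theorem Har.div_diff {q : ℝ} {E : Finset ι} {Z : Set ι} {l r : ι → V} {u u' : V → ℝ} {U : Set V}
    (h : Har q E Z l r u U) (h' : Har q E Z l r u' U) :
    Div E Z l r (fun e => phi q (u (l e) - u (r e)) - phi q (u' (l e) - u' (r e))) U := by
  intro ϕ hϕ hϕZ
  have h1 := h ϕ hϕ hϕZ
  have h2 := h' ϕ hϕ hϕZ
  rw [← sub_zero (0 : ℝ)]
  nth_rewrite 1 [← h1]
  rw [← h2, ← Finset.sum_sub_distrib]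
  apply Finset.sum_congr rfl
  intro e _
  ring

/-- nonlinear network: one solution -/
theorem sgn_one {q : ℝ} (hq : 1 < q) (E : Finset ι) (l r : ι → V) (u : V → ℝ) :
    Sgn E l r (fun e => phi q (u (l e) - u (r e))) u where
  pos := fun e _ h => by
    have := phi_strict hq (show 0 < u (l e) - u (r e) by linarith)
    rwa [phi_zero] at this
  neg := fun e _ h => by
    have := phi_strict hq (show u (l e) - u (r e) < 0 by linarith)
    rwa [phi_zero] at this

theorem Sgn.neg' {E : Finset ι} {l r : ι → V} {J : ι → ℝ} {ψ : V → ℝ} (h : Sgn E l r J ψ) :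
    Sgn E l r (fun e => - J e) (fun x => - ψ x) where
  pos := fun e he h1 => by have := h.neg e he (by linarith); linarith
  neg := fun e he h1 => by have := h.pos e he (by linarith); linarith

theorem Div.neg' {E : Finset ι} {Z : Set ι} {l r : ι → V} {J : ι → ℝ} {U : Set V}
    (h : Div E Z l r J U) : Div E Z l r (fun e => - J e) U := by
  intro ϕ hϕ hϕZ
  have h1 := h ϕ hϕ hϕZ
  rw [← neg_eq_zero, ← Finset.sum_neg_distrib, ← h1]
  apply Finset.sum_congr rfl
  intro e _
  ring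

end graph

end CarpetPI.Gr
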