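import Pool.Agent.Lib.MP_1d263a_an.GR.Hol
import Pool.Agent.Lib.MP_1d263a_an.GR.Exit

/-!
# Carpet project: from conjugate pairs on the lattice to the equations `Har`

`hG` is the second part (first part) of `S_XG`.
-/

open Finset
open scoped Classical

noncomputable section

namespace CarpetPI.Gr

theorem mem_sides {e : Ed} {f : Pt} : e ∈ sides f ↔ (lf e = f ∨ rf e = f) := by
  obtain ⟨b, x, y⟩ := e
  obtain ⟨f₁, f₂⟩ := f
  cases b
  · simp only [sides, lf, rf, mem_insert, mem_singleton, Prod.mk.injEq, true_and, false_and,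
      Bool.false_eq_true, if_false, or_false]
    constructor
    · rintro (⟨h1, h2⟩ | ⟨h1, h2⟩)
      · exact Or.inl ⟨h1, h2⟩
      · exact Or.inr ⟨h1, by omega⟩
    · rintro (⟨h1, h2⟩ | ⟨h1, h2⟩)
      · exact Or.inl ⟨h1, h2⟩
      · exact Or.inr ⟨h1, by omega⟩
  · simp only [sides, lf, rf, mem_insert, mem_singleton, Prod.mk.injEq, true_and, false_and,
      if_true, false_or, reduceCtorEq]
    constructor
    · rintro (⟨h1, h2⟩ | ⟨h1, h2⟩)
      · exact Or.inr ⟨h1, h2⟩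
      · exact Or.inl ⟨by omega, h2⟩
    · rintro (⟨h1, h2⟩ | ⟨h1, h2⟩)
      · exact Or.inr ⟨by omega, h2⟩
      · exact Or.inl ⟨h1, h2⟩

/-- the equation on the faces -/
theorem har_face {q : ℝ} (K : Set Pt) (B : Finset Pt) (E : Finset Ed) (u v : Pt → ℝ)
    (hG : ∀ (z t : Pt → ℝ) (B : Finset Pt) (E : Finset Ed), (∀ f, f ∉ B → t f = 0) →
      (∀ e : Ed, lf e ∈ B ∨ rf e ∈ B → e ∈ E) → ∑ e ∈ E, du z e * dv t e = 0)
    (hE : ∀ e : Ed, pres K e → lf e ∈ B ∨ rf e ∈ B → e ∈ E) (hEp : ∀ e ∈ E, pres K e)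
    (hp : ∀ e : Ed, pres K e → lf e ∈ B ∨ rf e ∈ B → phi q (dv v e) = du u e) :
    Har q E {e | ¬ pres K e} lf rf v ↑B := by
  intro ϕ hϕ hϕZ
  have hϕ' : ∀ f, f ∉ B → ϕ f = 0 := fun f hf => hϕ f (by simpa using hf)
  have h1 := hG u ϕ B (B.biUnion sides) hϕ' (fun e he => by
    rcases he with he | he
    · exact mem_biUnion.2 ⟨_, he, mem_sides.2 (Or.inl rfl)⟩
    · exact mem_biUnion.2 ⟨_, he, mem_sides.2 (Or.inr rfl)⟩)
  have h2 : ∑ e ∈ B.biUnion sides, du u e * dv ϕ e =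
      ∑ e ∈ (B.biUnion sides).filter (fun e => pres K e), phi q (v (lf e) - v (rf e)) *
        (ϕ (lf e) - ϕ (rf e)) := by
    rw [sum_filter]
    apply sum_congr rfl
    intro e he
    split_ifs with h
    · obtain ⟨f, hf, hef⟩ := mem_biUnion.1 he
      have h3 : lf e ∈ B ∨ rf e ∈ B := by
        rcases mem_sides.1 hef with h4 | h4
        · exact Or.inl (h4 ▸ hf)
        · exact Or.inr (h4 ▸ hf)
      have := hp e h h3
      unfold dv at this
      rw [this]; rfl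
    · have := hϕZ e h
      unfold dv
      rw [this]; ring
  have h3 : (B.biUnion sides).filter (fun e => pres K e) ⊆ E := by
    intro e he
    obtain ⟨he1, he2⟩ := mem_filter.1 he
    obtain ⟨f, hf, hef⟩ := mem_biUnion.1 he1
    apply hE e he2
    rcases mem_sides.1 hef with h4 | h4
    · exact Or.inl (h4 ▸ hf)
    · exact Or.inr (h4 ▸ hf)
  rw [← sum_subset h3, ← h2, h1]
  intro e he hne
  have h4 : ¬ (lf e ∈ B ∨ rf e ∈ B) := by
    intro h5
    apply hne
    rw [mem_filter, mem_biUnion]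
    refine ⟨?_, hEp e he⟩
    rcases h5 with h5 | h5
    · exact ⟨_, h5, mem_sides.2 (Or.inl rfl)⟩
    · exact ⟨_, h5, mem_sides.2 (Or.inr rfl)⟩
  rw [not_or] at h4
  rw [hϕ' _ h4.1, hϕ' _ h4.2]
  ring

/-- the edges with an end at the vertex `x` -/
def star (x : Pt) : Finset Ed :=
  {(false, x), (false, (x.1 - 1, x.2)), (true, x), (true, (x.1, x.2 - 1))}

theorem mem_star {e : Ed} {x : Pt} : e ∈ star x ↔ (hd e = x ∨ tl e = x) := by
  obtain ⟨b, x₁, y₁⟩ := e
  obtain ⟨f₁, f₂⟩ := x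
  cases b
  · simp only [star, hd, tl, mem_insert, mem_singleton, Prod.mk.injEq, true_and, false_and,
      Bool.false_eq_true, if_false, or_false]
    constructor
    · rintro (⟨h1, h2⟩ | ⟨h1, h2⟩)
      · exact Or.inr ⟨h1, h2⟩
      · exact Or.inl ⟨by omega, h2⟩
    · rintro (⟨h1, h2⟩ | ⟨h1, h2⟩)
      · exact Or.inr ⟨by omega, h2⟩
      · exact Or.inl ⟨h1, h2⟩
  · simp only [star, hd, tl, mem_insert, mem_singleton, Prod.mk.injEq, true_and, false_and,
      if_true, false_or, reduceCtorEq]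
    constructor
    · rintro (⟨h1, h2⟩ | ⟨h1, h2⟩)
      · exact Or.inr ⟨h1, h2⟩
      · exact Or.inl ⟨h1, by omega⟩
    · rintro (⟨h1, h2⟩ | ⟨h1, h2⟩)
      · exact Or.inr ⟨h1, by omega⟩
      · exact Or.inl ⟨h1, h2⟩

/-- the equation on the vertices -/
theorem har_vertex {p : ℝ} (K : Set Pt) (B : Finset Pt) (E : Finset Ed) (u v : Pt → ℝ)
    (hG : ∀ (s v : Pt → ℝ) (B : Finset Pt) (E : Finset Ed), (∀ x, x ∉ B → s x = 0) →
      (∀ e : Ed, tl e ∈ B ∨ hd e ∈ B → e ∈ E) → ∑ e ∈ E, du s e * dv v e = 0)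
    (hE : ∀ e : Ed, pres K e → tl e ∈ B ∨ hd e ∈ B → e ∈ E) (hEp : ∀ e ∈ E, pres K e)
    (hp : ∀ e : Ed, tl e ∈ B ∨ hd e ∈ B → (pres K e → dv v e = phi p (du u e)) ∧
      (¬ pres K e → dv v e = 0)) :
    Har p E ∅ hd tl u ↑B := by
  intro ϕ hϕ _
  have hϕ' : ∀ f, f ∉ B → ϕ f = 0 := fun f hf => hϕ f (by simpa using hf)
  have h1 := hG ϕ v B (B.biUnion star) hϕ' (fun e he => by
    rcases he with he | he
    · exact mem_biUnion.2 ⟨_, he, mem_star.2 (Or.inr rfl)⟩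
    · exact mem_biUnion.2 ⟨_, he, mem_star.2 (Or.inl rfl)⟩)
  have h2 : ∑ e ∈ B.biUnion star, du ϕ e * dv v e =
      ∑ e ∈ (B.biUnion star).filter (fun e => pres K e), phi p (u (hd e) - u (tl e)) *
        (ϕ (hd e) - ϕ (tl e)) := by
    rw [sum_filter]
    apply sum_congr rfl
    intro e he
    obtain ⟨f, hf, hef⟩ := mem_biUnion.1 he
    have h3 : tl e ∈ B ∨ hd e ∈ B := by
      rcases mem_star.1 hef with h4 | h4
      · exact Or.inr (h4 ▸ hf)
      · exact Or.inl (h4 ▸ hf)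
    split_ifs with h
    · rw [(hp e h3).1 h]
      unfold du
      ring
    · rw [(hp e h3).2 h]; ring
  have h3 : (B.biUnion star).filter (fun e => pres K e) ⊆ E := by
    intro e he
    obtain ⟨he1, he2⟩ := mem_filter.1 he
    obtain ⟨f, hf, hef⟩ := mem_biUnion.1 he1
    apply hE e he2
    rcases mem_star.1 hef with h4 | h4
    · exact Or.inr (h4 ▸ hf)
    · exact Or.inl (h4 ▸ hf)
  rw [← sum_subset h3, ← h2, h1]
  intro e he hne
  have h4 : ¬ (hd e ∈ B ∨ tl e ∈ B) := by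
    intro h5
    apply hne
    rw [mem_filter, mem_biUnion]
    refine ⟨?_, hEp e he⟩
    rcases h5 with h5 | h5
    · exact ⟨_, h5, mem_star.2 (Or.inl rfl)⟩
    · exact ⟨_, h5, mem_star.2 (Or.inr rfl)⟩
  rw [not_or] at h4
  rw [hϕ' _ h4.1, hϕ' _ h4.2]
  ring

/-- `phi q` and `phi p` are inverse to each other for conjugate exponents -/
theorem phi_phi {p q : ℝ} (h : p.HolderConjugate q) (t : ℝ) : phi q (phi p t) = t := by
  have hp : 1 < p := h.lt
  have hq : 1 < q := h.symm.lt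
  have e : (p - 1) * (q - 1) = 1 := by
    have h1 := h.sub_one_mul_conj
    nlinarith [h.sub_one_mul_conj, h.mul_eq_add]
  rcases le_total 0 t with ht | ht
  · rw [phi_of_nonneg hp ht, phi_of_nonneg hq (Real.rpow_nonneg ht _), ← Real.rpow_mul ht, e,
      Real.rpow_one]
  · rw [phi_of_nonpos hp ht, phi_neg, phi_of_nonneg hq (Real.rpow_nonneg (by linarith) _),
      ← Real.rpow_mul (by linarith), e, Real.rpow_one]
    ring

end CarpetPI.Gr
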