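import Pool.Agent.Lib.MP_1d263a_an.PI.Defs

/-!
# Carpet project: inequalities on one edge

`phi q t = |t|^(q-2) t`. `α, β` are the values of `w` at the ends of an edge, `α', β'` the values of `w'`.
-/

noncomputable section

namespace CarpetPI.Gr

/-! ### the function `phi` -/

theorem phi_zero (q : ℝ) : phi q 0 = 0 := by simp [phi]

theorem phi_neg (q t : ℝ) : phi q (-t) = - phi q t := by
  simp [phi, Real.sign_neg]

theorem phi_of_nonneg {q t : ℝ} (hq : 1 < q) (ht : 0 ≤ t) : phi q t = t ^ (q - 1) := by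
  rcases ht.eq_or_lt with rfl | h
  · rw [phi_zero, Real.zero_rpow (by linarith)]
  · simp [phi, Real.sign_of_pos h, abs_of_pos h]

theorem phi_of_nonpos {q t : ℝ} (hq : 1 < q) (ht : t ≤ 0) : phi q t = - (-t) ^ (q - 1) := by
  have := phi_of_nonneg (q := q) (t := -t) hq (by linarith)
  rw [phi_neg] at this
  linarith

theorem abs_phi {q : ℝ} (hq : 1 < q) (t : ℝ) : |phi q t| = |t| ^ (q - 1) := by
  rcases le_total 0 t with h | h
  · rw [phi_of_nonneg hq h, abs_of_nonneg h, abs_of_nonneg (Real.rpow_nonneg h _)]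
  · rw [phi_of_nonpos hq h, abs_neg, abs_of_nonpos h, abs_of_nonneg (Real.rpow_nonneg (by linarith) _)]

theorem phi_mul_self {q : ℝ} (hq : 1 < q) (t : ℝ) : phi q t * t = |t| ^ q := by
  rcases le_total 0 t with h | h
  · rw [phi_of_nonneg hq h, abs_of_nonneg h]
    rcases h.eq_or_lt with rfl | h
    · rw [Real.zero_rpow (by linarith), Real.zero_rpow (by linarith), mul_zero]
    · rw [Real.rpow_sub_one h.ne']; field_simp
  · rw [phi_of_nonpos hq h, abs_of_nonpos h]
    rcases h.eq_or_lt with rfl | h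
    · simp [Real.zero_rpow (show q ≠ 0 by linarith)]
    · have h' : 0 < -t := by linarith
      have h2 : (-t) ^ q = (-t) ^ (q - 1) * (-t) := by
        rw [← Real.rpow_add_one h'.ne']; ring_nf
      rw [h2]; ring

/-- `phi` is homogeneous -/
theorem phi_smul {q c : ℝ} (hq : 1 < q) (hc : 0 ≤ c) (t : ℝ) : phi q (c * t) = c ^ (q - 1) * phi q t := by
  rcases le_total 0 t with h | h
  · rw [phi_of_nonneg hq h, phi_of_nonneg hq (mul_nonneg hc h), Real.mul_rpow hc h]
  · rw [phi_of_nonpos hq h, phi_of_nonpos hq (mul_nonpos_of_nonneg_of_nonpos hc h),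
      show -(c * t) = c * (-t) by ring, Real.mul_rpow hc (by linarith)]
    ring

/-- lower bound, both nonnegative -/
theorem lower_aux {q a b : ℝ} (hq : 2 ≤ q) (hb : 0 ≤ b) (hab : b ≤ a) :
    (1 / 2 : ℝ) ^ (q - 1) * (a + b) ^ (q - 2) * (a - b) ≤ a ^ (q - 1) - b ^ (q - 1) := by
  have ha : 0 ≤ a := hb.trans hab
  rcases ha.eq_or_lt with h0 | h0
  · have hb0 : b = 0 := le_antisymm (by linarith) hb
    rw [← h0, hb0]
    simp
  have h1 : b ^ (q - 1) ≤ a ^ (q - 2) * b := by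
    rcases hb.eq_or_lt with rfl | hb'
    · rw [Real.zero_rpow (by linarith), mul_zero]
    · have : b ^ (q - 1) = b ^ (q - 2) * b := by
        rw [← Real.rpow_add_one hb'.ne']; ring_nf
      rw [this]
      gcongr
  have h2 : a ^ (q - 1) = a ^ (q - 2) * a := by
    rw [← Real.rpow_add_one h0.ne']; ring_nf
  have h3 : (1 / 2 : ℝ) ^ (q - 1) * (a + b) ^ (q - 2) ≤ a ^ (q - 2) := by
    have h4 : (1 / 2 : ℝ) ^ (q - 1) ≤ (1 / 2 : ℝ) ^ (q - 2) :=
      Real.rpow_le_rpow_of_exponent_ge (by norm_num) (by norm_num) (by linarith)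
    have h5 : (a + b) ^ (q - 2) ≤ (2 * a) ^ (q - 2) :=
      Real.rpow_le_rpow (by linarith) (by linarith) (by linarith)
    calc (1 / 2 : ℝ) ^ (q - 1) * (a + b) ^ (q - 2)
        ≤ (1 / 2 : ℝ) ^ (q - 2) * (2 * a) ^ (q - 2) := by gcongr
      _ = a ^ (q - 2) := by
          rw [← Real.mul_rpow (by norm_num) (by linarith)]; congr 1; ring
  calc (1 / 2 : ℝ) ^ (q - 1) * (a + b) ^ (q - 2) * (a - b)
      ≤ a ^ (q - 2) * (a - b) := by
        apply mul_le_mul_of_nonneg_right h3; linarith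
    _ = a ^ (q - 2) * a - a ^ (q - 2) * b := by ring
    _ ≤ a ^ (q - 1) - b ^ (q - 1) := by rw [h2]; linarith

theorem phi_sub_lower {q a b : ℝ} (hq : 2 ≤ q) (hab : b ≤ a) :
    (1 / 2 : ℝ) ^ (q - 1) * (|a| + |b|) ^ (q - 2) * (a - b) ≤ phi q a - phi q b := by
  have hq1 : 1 < q := by linarith
  rcases le_total 0 b with hb | hb
  · rw [phi_of_nonneg hq1 hb, phi_of_nonneg hq1 (hb.trans hab), abs_of_nonneg hb,
      abs_of_nonneg (hb.trans hab)]
    exact lower_aux hq hb hab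
  rcases le_total 0 a with ha | ha
  · rw [phi_of_nonneg hq1 ha, phi_of_nonpos hq1 hb, abs_of_nonneg ha, abs_of_nonpos hb]
    set c := -b with hc
    have hc0 : 0 ≤ c := by linarith
    have : a - b = a + c := by linarith
    rw [this]
    rcases (add_nonneg ha hc0).eq_or_lt with h | h
    · rw [← h, mul_zero]
      have := Real.rpow_nonneg ha (q - 1)
      have := Real.rpow_nonneg hc0 (q - 1)
      linarith
    have h2 : (a + c) ^ (q - 2) * (a + c) = (a + c) ^ (q - 1) := by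
      rw [← Real.rpow_add_one h.ne']; ring_nf
    rw [mul_assoc, h2, ← Real.mul_rpow (by norm_num) h.le]
    rcases le_total a c with h3 | h3
    · have : (1 / 2 * (a + c)) ^ (q - 1) ≤ c ^ (q - 1) :=
        Real.rpow_le_rpow (by linarith) (by linarith) (by linarith)
      have := Real.rpow_nonneg ha (q - 1)
      linarith
    · have : (1 / 2 * (a + c)) ^ (q - 1) ≤ a ^ (q - 1) :=
        Real.rpow_le_rpow (by linarith) (by linarith) (by linarith)
      have := Real.rpow_nonneg hc0 (q - 1)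
      linarith
  · rw [phi_of_nonpos hq1 ha, phi_of_nonpos hq1 hb, abs_of_nonpos ha, abs_of_nonpos hb]
    have := lower_aux (q := q) (a := -b) (b := -a) hq (by linarith) (by linarith)
    rw [show -b + -a = -a + -b by ring, show -b - -a = a - b by ring] at this
    linarith

/-- upper bound, both nonnegative -/
theorem upper_aux {q a b : ℝ} (hq : 2 ≤ q) (hb : 0 ≤ b) (hab : b ≤ a) :
    a ^ (q - 1) - b ^ (q - 1) ≤ (q - 1) * (a + b) ^ (q - 2) * (a - b) := by
  have ha : 0 ≤ a := hb.trans hab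
  rcases ha.eq_or_lt with h0 | h0
  · have hb0 : b = 0 := le_antisymm (by linarith) hb
    rw [← h0, hb0]
    simp
  -- Bernoulli
  have h1 : 1 + (q - 1) * (b / a - 1) ≤ (b / a) ^ (q - 1) := by
    have := one_add_mul_self_le_rpow_one_add (s := b / a - 1) (p := q - 1)
      (by have : 0 ≤ b / a := by positivity
          linarith) (by linarith)
    simpa using this
  have h2 : (b / a) ^ (q - 1) = b ^ (q - 1) / a ^ (q - 1) := Real.div_rpow hb ha _
  have h3 : a ^ (q - 1) = a ^ (q - 2) * a := by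
    rw [← Real.rpow_add_one h0.ne']; ring_nf
  have hp : 0 < a ^ (q - 1) := Real.rpow_pos_of_pos h0 _
  rw [h2, le_div_iff₀ hp] at h1
  have h4 : (1 + (q - 1) * (b / a - 1)) * a ^ (q - 1) =
      a ^ (q - 1) - (q - 1) * a ^ (q - 2) * (a - b) := by
    rw [h3]; field_simp; ring
  rw [h4] at h1
  have h5 : a ^ (q - 2) ≤ (a + b) ^ (q - 2) :=
    Real.rpow_le_rpow ha (by linarith) (by linarith)
  have h6 : (q - 1) * a ^ (q - 2) * (a - b) ≤ (q - 1) * (a + b) ^ (q - 2) * (a - b) := by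
    have : 0 ≤ q - 1 := by linarith
    have : 0 ≤ a - b := by linarith
    gcongr
  linarith

theorem phi_sub_upper {q a b : ℝ} (hq : 2 ≤ q) (hab : b ≤ a) :
    phi q a - phi q b ≤ (q - 1) * (|a| + |b|) ^ (q - 2) * (a - b) := by
  have hq1 : 1 < q := by linarith
  rcases le_total 0 b with hb | hb
  · rw [phi_of_nonneg hq1 hb, phi_of_nonneg hq1 (hb.trans hab), abs_of_nonneg hb,
      abs_of_nonneg (hb.trans hab)]
    exact upper_aux hq hb hab
  rcases le_total 0 a with ha | ha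
  · rw [phi_of_nonneg hq1 ha, phi_of_nonpos hq1 hb, abs_of_nonneg ha, abs_of_nonpos hb]
    set c := -b with hc
    have hc0 : 0 ≤ c := by linarith
    have : a - b = a + c := by linarith
    rw [this]
    rcases (add_nonneg ha hc0).eq_or_lt with h | h
    · have ha0 : a = 0 := by linarith
      have hc1 : c = 0 := by linarith
      rw [ha0, hc1]
      simp [Real.zero_rpow (show q - 1 ≠ 0 by linarith)]
    have h2 : (a + c) ^ (q - 2) * (a + c) = (a + c) ^ (q - 1) := by
      rw [← Real.rpow_add_one h.ne']; ring_nf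
    have h3 : a ^ (q - 1) + c ^ (q - 1) ≤ (a + c) ^ (q - 1) :=
      Real.add_rpow_le_rpow_add ha hc0 (by linarith)
    have h4 : (q - 1) * (a + c) ^ (q - 2) * (a + c) = (q - 1) * (a + c) ^ (q - 1) := by
      rw [mul_assoc, h2]
    rw [h4]
    have h5 : 0 ≤ (a + c) ^ (q - 1) := Real.rpow_nonneg h.le _
    nlinarith
  · rw [phi_of_nonpos hq1 ha, phi_of_nonpos hq1 hb, abs_of_nonpos ha, abs_of_nonpos hb]
    have := upper_aux (q := q) (a := -b) (b := -a) hq (by linarith) (by linarith)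
    rw [show -b + -a = -a + -b by ring, show -b - -a = a - b by ring] at this
    linarith

theorem phi_mono {q : ℝ} (hq : 1 < q) {a b : ℝ} (hab : b ≤ a) : phi q b ≤ phi q a := by
  rcases le_total 0 b with hb | hb
  · rw [phi_of_nonneg hq hb, phi_of_nonneg hq (hb.trans hab)]
    exact Real.rpow_le_rpow hb hab (by linarith)
  rcases le_total 0 a with ha | ha
  · rw [phi_of_nonneg hq ha, phi_of_nonpos hq hb]
    have := Real.rpow_nonneg ha (q - 1)
    have := Real.rpow_nonneg (show 0 ≤ -b by linarith) (q - 1)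
    linarith
  · rw [phi_of_nonpos hq ha, phi_of_nonpos hq hb]
    have := Real.rpow_le_rpow (show 0 ≤ -a by linarith) (show -a ≤ -b by linarith)
      (show 0 ≤ q - 1 by linarith)
    linarith

/-! ### Picone -/

theorem picone_aux {q α β α' β' : ℝ} (hq : 1 < q) (hα : 0 ≤ α) (hβ : 0 ≤ β) (hβ' : 0 < β')
    (h : β' ≤ α') :
    phi q (α' - β') * (α ^ q / α' ^ (q - 1) - β ^ q / β' ^ (q - 1)) ≤ |α - β| ^ q := by
  have hα' : 0 < α' := hβ'.trans_le h
  rcases h.eq_or_lt with h0 | h0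
  · subst h0
    rw [sub_self, phi_zero, zero_mul]
    positivity
  rw [phi_of_nonneg hq (by linarith)]
  set τ := β' / α' with hτ
  have hτ0 : 0 < τ := by positivity
  have hτ1 : τ < 1 := by rw [hτ, div_lt_one hα']; exact h0
  have e1 : α' - β' = α' * (1 - τ) := by rw [hτ]; field_simp
  have e2 : β' = α' * τ := by rw [hτ]; field_simp
  have hp : 0 < α' ^ (q - 1) := Real.rpow_pos_of_pos hα' _
  have hpτ : 0 < τ ^ (q - 1) := Real.rpow_pos_of_pos hτ0 _
  have h1τ : 0 < (1 - τ) ^ (q - 1) := Real.rpow_pos_of_pos (by linarith) _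
  have e3 : (α' - β') ^ (q - 1) = α' ^ (q - 1) * (1 - τ) ^ (q - 1) := by
    rw [e1, Real.mul_rpow hα'.le (by linarith)]
  have e4 : β' ^ (q - 1) = α' ^ (q - 1) * τ ^ (q - 1) := by
    rw [e2, Real.mul_rpow hα'.le hτ0.le]
  rw [e3, e4]
  have e5 : α' ^ (q - 1) * (1 - τ) ^ (q - 1) * (α ^ q / α' ^ (q - 1) - β ^ q / (α' ^ (q - 1) * τ ^ (q - 1)))
      = (1 - τ) ^ (q - 1) * α ^ q - (1 - τ) ^ (q - 1) * (β ^ q / τ ^ (q - 1)) := by
    field_simp
  rw [e5]
  -- convexity
  have hx0 : |α - β| / (1 - τ) ∈ Set.Ici (0 : ℝ) :=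
    Set.mem_Ici.2 (div_nonneg (abs_nonneg _) (by linarith))
  have hy0 : β / τ ∈ Set.Ici (0 : ℝ) := Set.mem_Ici.2 (by positivity)
  have hconv := (convexOn_rpow hq.le).2 hx0 hy0 (show 0 ≤ 1 - τ by linarith) hτ0.le
    (show 1 - τ + τ = 1 by ring)
  simp only [smul_eq_mul] at hconv
  have e6 : (1 - τ) * (|α - β| / (1 - τ)) = |α - β| := by
    have : (1 - τ) ≠ 0 := by linarith
    field_simp
  have e7 : τ * (β / τ) = β := by field_simp
  rw [e6, e7] at hconv
  have h7 : α ≤ |α - β| + β := by have := le_abs_self (α - β); linarith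
  have h8 : α ^ q ≤ (|α - β| + β) ^ q := Real.rpow_le_rpow hα h7 (by linarith)
  have e8 : (1 - τ) * (|α - β| / (1 - τ)) ^ q = |α - β| ^ q / (1 - τ) ^ (q - 1) := by
    rw [Real.div_rpow (abs_nonneg _) (by linarith), Real.rpow_sub_one (by linarith : (1 - τ) ≠ 0)]
    have : (1 - τ) ≠ 0 := by linarith
    have : (1 - τ) ^ q ≠ 0 := (Real.rpow_pos_of_pos (by linarith) _).ne'
    field_simp
  have e9 : τ * (β / τ) ^ q = β ^ q / τ ^ (q - 1) := by
    rw [Real.div_rpow hβ hτ0.le, Real.rpow_sub_one hτ0.ne']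
    have : τ ^ q ≠ 0 := (Real.rpow_pos_of_pos hτ0 _).ne'
    field_simp
  rw [e8, e9] at hconv
  have h9 : (1 - τ) ^ (q - 1) * α ^ q ≤
      (1 - τ) ^ (q - 1) * (|α - β| ^ q / (1 - τ) ^ (q - 1) + β ^ q / τ ^ (q - 1)) := by
    gcongr
    exact h8.trans hconv
  have e10 : (1 - τ) ^ (q - 1) * (|α - β| ^ q / (1 - τ) ^ (q - 1) + β ^ q / τ ^ (q - 1)) =
      |α - β| ^ q + (1 - τ) ^ (q - 1) * (β ^ q / τ ^ (q - 1)) := by
    field_simp
  rw [e10] at h9
  linarith

/-- discrete Picone inequality -/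
theorem picone {q α β α' β' : ℝ} (hq : 1 < q) (hα : 0 ≤ α) (hβ : 0 ≤ β) (hα' : 0 < α')
    (hβ' : 0 < β') :
    phi q (α' - β') * (α ^ q / α' ^ (q - 1) - β ^ q / β' ^ (q - 1)) ≤ |α - β| ^ q := by
  rcases le_total β' α' with h | h
  · exact picone_aux hq hα hβ hβ' h
  · have := picone_aux (q := q) (α := β) (β := α) (α' := β') (β' := α') hq hβ hα hα' h
    rw [abs_sub_comm, show β' - α' = -(α' - β') by ring, phi_neg] at this
    calc phi q (α' - β') * (α ^ q / α' ^ (q - 1) - β ^ q / β' ^ (q - 1))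
        = -phi q (α' - β') * (β ^ q / β' ^ (q - 1) - α ^ q / α' ^ (q - 1)) := by ring
      _ ≤ _ := this

end CarpetPI.Gr
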