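import Pool.Agent.Lib.MP_1d263a_an.GR.Lin

/-!
# Carpet project: Hoelder inequalities for the conductances `cw`
-/

noncomputable section

namespace CarpetPI.Gr

section graph

variable {ι V : Type*}

/-- Hoelder with the exponents `q / (q - 2)` and `q / 2` -/
theorem holder_two {q : ℝ} (hq : 2 < q) (E : Finset ι) (m η : ι → ℝ) (hm : ∀ e ∈ E, 0 ≤ m e) :
    ∑ e ∈ E, m e ^ (q - 2) * η e ^ 2 ≤
      (∑ e ∈ E, m e ^ q) ^ ((q - 2) / q) * (∑ e ∈ E, |η e| ^ q) ^ (2 / q) := by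
  have hq0 : 0 < q := by linarith
  have hq2 : 0 < q - 2 := by linarith
  have hpq : (q / (q - 2)).HolderConjugate (q / 2) := by
    rw [Real.holderConjugate_iff]
    constructor
    · rw [lt_div_iff₀ hq2]; linarith
    · rw [inv_div, inv_div]; field_simp; ring
  have h := Real.inner_le_Lp_mul_Lq E (fun e => m e ^ (q - 2)) (fun e => η e ^ 2) hpq
  refine h.trans (le_of_eq ?_)
  have e1 : ∑ i ∈ E, |m i ^ (q - 2)| ^ (q / (q - 2)) = ∑ e ∈ E, m e ^ q := by
    apply Finset.sum_congr rfl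
    intro e he
    have h0 := hm e he
    rw [abs_of_nonneg (Real.rpow_nonneg h0 _), ← Real.rpow_mul h0]
    congr 1
    field_simp
  have e2 : ∑ i ∈ E, |η i ^ 2| ^ (q / 2) = ∑ e ∈ E, |η e| ^ q := by
    apply Finset.sum_congr rfl
    intro e _
    rw [abs_of_nonneg (sq_nonneg _), ← sq_abs, ← Real.rpow_natCast, ← Real.rpow_mul (abs_nonneg _)]
    congr 1
    push_cast
    field_simp
  rw [e1, e2]
  congr 2
  · rw [one_div, inv_div]
  · rw [one_div, inv_div]

/-- (2a): the upper bound for the energy of a cutoff function -/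
theorem cw_upper {q t : ℝ} (hq : 2 < q) (ht : 0 ≤ t) (E : Finset ι) (l r : ι → V) (w w' : V → ℝ)
    (η : ι → ℝ) :
    ∑ e ∈ E, cw q t l r w w' e * η e ^ 2 ≤
      (q - 1) * ((∑ e ∈ E, sz t l r w w' e ^ q) ^ ((q - 2) / q) *
        (∑ e ∈ E, |η e| ^ q) ^ (2 / q)) := by
  have h1 := holder_two hq E (sz t l r w w') η (fun e _ => sz_nonneg ht l r w w' e)
  calc ∑ e ∈ E, cw q t l r w w' e * η e ^ 2
      ≤ ∑ e ∈ E, (q - 1) * (sz t l r w w' e ^ (q - 2) * η e ^ 2) := by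
        apply Finset.sum_le_sum
        intro e _
        have := (cw_bounds hq.le ht l r w w' e).2
        have := mul_le_mul_of_nonneg_right this (sq_nonneg (η e))
        linarith
    _ = (q - 1) * ∑ e ∈ E, sz t l r w w' e ^ (q - 2) * η e ^ 2 := by rw [Finset.mul_sum]
    _ ≤ _ := by
        apply mul_le_mul_of_nonneg_left h1
        linarith

/-- the currents are bounded by the size of the edge -/
theorem cur_le {q t : ℝ} (hq : 2 < q) (ht : 0 ≤ t) (l r : ι → V) (w w' : V → ℝ) (e : ι) :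
    |w (l e) - w (r e)| ^ (q - 1) + t ^ (q - 1) * |w' (l e) - w' (r e)| ^ (q - 1) ≤
      2 * sz t l r w w' e ^ (q - 1) := by
  have h1 : |w (l e) - w (r e)| ^ (q - 1) ≤ sz t l r w w' e ^ (q - 1) := by
    apply Real.rpow_le_rpow (abs_nonneg _) _ (by linarith)
    unfold sz
    have : 0 ≤ t * |w' (l e) - w' (r e)| := by positivity
    linarith
  have h2 : t ^ (q - 1) * |w' (l e) - w' (r e)| ^ (q - 1) ≤ sz t l r w w' e ^ (q - 1) := by
    rw [← Real.mul_rpow ht (abs_nonneg _)]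
    apply Real.rpow_le_rpow (by positivity) _ (by linarith)
    unfold sz
    have := abs_nonneg (w (l e) - w (r e))
    linarith
  linarith

/-- (2b): the lower bound for the energy of a function `φ` from the crossing inequality
`κ ≤ ∑ |χ| |φ|`, where `χ` is bounded by the currents -/
theorem cw_lower {q t κ : ℝ} (hq : 2 < q) (ht : 0 ≤ t) (hκ : 0 ≤ κ) (E : Finset ι) (l r : ι → V)
    (w w' : V → ℝ) (χ φ : ι → ℝ)
    (hχ : ∀ e ∈ E, |χ e| ≤ |w (l e) - w (r e)| ^ (q - 1) +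
      t ^ (q - 1) * |w' (l e) - w' (r e)| ^ (q - 1))
    (h : κ ≤ ∑ e ∈ E, |χ e| * |φ e|) :
    κ ^ 2 ≤ 4 / cL q * (∑ e ∈ E, cw q t l r w w' e * φ e ^ 2) *
      ∑ e ∈ E, sz t l r w w' e ^ q := by
  set s := sz t l r w w' with hs
  have hs0 : ∀ e, 0 ≤ s e := fun e => sz_nonneg ht l r w w' e
  -- each term
  have h1 : ∑ e ∈ E, |χ e| * |φ e| ≤
      ∑ e ∈ E, (2 * (s e ^ ((q - 2) / 2) * |φ e|)) * s e ^ (q / 2) := by
    apply Finset.sum_le_sum
    intro e he
    have h2 : |χ e| ≤ 2 * s e ^ (q - 1) := (hχ e he).trans (cur_le hq ht l r w w' e)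
    have h3 : s e ^ (q - 1) = s e ^ ((q - 2) / 2) * s e ^ (q / 2) := by
      rw [← Real.rpow_add_of_nonneg (hs0 e) (by linarith) (by linarith)]
      congr 1; ring
    calc |χ e| * |φ e| ≤ 2 * s e ^ (q - 1) * |φ e| := by gcongr
      _ = _ := by rw [h3]; ring
  have h4 : (∑ e ∈ E, (2 * (s e ^ ((q - 2) / 2) * |φ e|)) * s e ^ (q / 2)) ^ 2 ≤
      (∑ e ∈ E, (2 * (s e ^ ((q - 2) / 2) * |φ e|)) ^ 2) * ∑ e ∈ E, (s e ^ (q / 2)) ^ 2 :=
    Finset.sum_mul_sq_le_sq_mul_sq E _ _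
  have h5 : ∑ e ∈ E, (s e ^ (q / 2)) ^ 2 = ∑ e ∈ E, s e ^ q := by
    apply Finset.sum_congr rfl
    intro e _
    rw [← Real.rpow_natCast, ← Real.rpow_mul (hs0 e)]
    congr 1; push_cast; ring
  have h6 : ∑ e ∈ E, (2 * (s e ^ ((q - 2) / 2) * |φ e|)) ^ 2 ≤
      4 / cL q * ∑ e ∈ E, cw q t l r w w' e * φ e ^ 2 := by
    rw [Finset.mul_sum]
    apply Finset.sum_le_sum
    intro e _
    have h7 : (s e ^ ((q - 2) / 2)) ^ 2 = s e ^ (q - 2) := by
      rw [← Real.rpow_natCast, ← Real.rpow_mul (hs0 e)]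
      congr 1; push_cast; ring
    have h8 := (cw_bounds hq.le ht l r w w' e).1
    have hc := cL_pos q
    have h9 : s e ^ (q - 2) ≤ cw q t l r w w' e / cL q := by
      rw [le_div_iff₀ hc]; linarith
    have e1 : (2 * (s e ^ ((q - 2) / 2) * |φ e|)) ^ 2 = 4 * (s e ^ (q - 2) * φ e ^ 2) := by
      rw [← h7, ← sq_abs (φ e)]; ring
    rw [e1]
    calc 4 * (s e ^ (q - 2) * φ e ^ 2) ≤ 4 * (cw q t l r w w' e / cL q * φ e ^ 2) := by gcongr
      _ = _ := by ring
  have h10 : 0 ≤ ∑ e ∈ E, s e ^ q := Finset.sum_nonneg fun e _ => Real.rpow_nonneg (hs0 e) _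
  calc κ ^ 2 ≤ (∑ e ∈ E, (2 * (s e ^ ((q - 2) / 2) * |φ e|)) * s e ^ (q / 2)) ^ 2 := by
        have := h.trans h1
        gcongr
    _ ≤ _ := h4
    _ ≤ 4 / cL q * (∑ e ∈ E, cw q t l r w w' e * φ e ^ 2) * ∑ e ∈ E, s e ^ q := by
        rw [h5]
        gcongr

/-- the end estimate: the difference of the currents of two solutions which are close to each other -/
theorem end_estimate {p q : ℝ} (hq : 2 < q) (hpq : p.HolderConjugate q) (E : Finset ι)
    (l r : ι → V) (w w' : V → ℝ) :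
    ∑ e ∈ E, |phi q (w (l e) - w (r e)) - phi q (w' (l e) - w' (r e))| ^ p ≤
      (q - 1) ^ (p / 2) *
      ((∑ e ∈ E, cw q 1 l r w w' e * ((w (l e) - w' (l e)) - (w (r e) - w' (r e))) ^ 2) ^ (p / 2) *
        (∑ e ∈ E, sz 1 l r w w' e ^ q) ^ (1 - p / 2)) := by
  have hq0 : 0 < q := by linarith
  have hp0 : 0 < p := hpq.pos
  have hsum : p⁻¹ + q⁻¹ = 1 := hpq.inv_add_inv_eq_one
  have hpe : p = q / (q - 1) := by
    have : p⁻¹ = 1 - q⁻¹ := by linarith
    have h2 : p⁻¹ = (q - 1) / q := by rw [this]; field_simp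
    rw [← inv_inv p, h2, inv_div]
  have hq1 : 0 < q - 1 := by linarith
  have hp2 : p < 2 := by
    rw [hpe, div_lt_iff₀ hq1]; linarith
  set s := sz 1 l r w w' with hs
  have hs0 : ∀ e, 0 ≤ s e := fun e => sz_nonneg zero_le_one l r w w' e
  set z : ι → ℝ := fun e => (w (l e) - w' (l e)) - (w (r e) - w' (r e)) with hz
  set c := cw q 1 l r w w' with hc
  have hc0 : ∀ e, 0 ≤ c e := fun e => cw_nonneg hq.le 1 l r w w' e
  -- each term
  have h1 : ∀ e ∈ E, |phi q (w (l e) - w (r e)) - phi q (w' (l e) - w' (r e))| ^ p ≤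
      (q - 1) ^ (p / 2) * ((c e * z e ^ 2) ^ (p / 2) * (s e ^ (q - 2)) ^ (p / 2)) := by
    intro e _
    have e1 := cst_mul q (w (l e) - w (r e)) (1 * (w' (l e) - w' (r e)))
    rw [one_mul] at e1
    have e2 : phi q (w (l e) - w (r e)) - phi q (w' (l e) - w' (r e)) = c e * z e := by
      rw [← e1, hc, hz]; unfold cw; rw [one_mul]; ring
    rw [e2]
    have h2 : |c e * z e| ^ p = ((c e * z e) ^ 2) ^ (p / 2) := by
      rw [← sq_abs, ← Real.rpow_natCast, ← Real.rpow_mul (abs_nonneg _)]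
      congr 1; push_cast; ring
    rw [h2, ← Real.mul_rpow (mul_nonneg (hc0 e) (sq_nonneg _)) (Real.rpow_nonneg (hs0 e) _),
      ← Real.mul_rpow hq1.le (mul_nonneg (mul_nonneg (hc0 e) (sq_nonneg _)) (Real.rpow_nonneg (hs0 e) _))]
    apply Real.rpow_le_rpow (sq_nonneg _) _ (by linarith)
    have h3 := (cw_bounds hq.le zero_le_one l r w w' e).2
    calc (c e * z e) ^ 2 = c e * (c e * z e ^ 2) := by ring
      _ ≤ ((q - 1) * s e ^ (q - 2)) * (c e * z e ^ 2) := by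
          apply mul_le_mul_of_nonneg_right h3
          exact mul_nonneg (hc0 e) (sq_nonneg _)
      _ = _ := by ring
  have h4 : ∑ e ∈ E, |phi q (w (l e) - w (r e)) - phi q (w' (l e) - w' (r e))| ^ p ≤
      (q - 1) ^ (p / 2) * ∑ e ∈ E, (c e * z e ^ 2) ^ (p / 2) * (s e ^ (q - 2)) ^ (p / 2) := by
    rw [Finset.mul_sum]
    exact Finset.sum_le_sum h1
  refine h4.trans ?_
  have hcoef : 0 ≤ (q - 1) ^ (p / 2) := Real.rpow_nonneg hq1.le _
  apply mul_le_mul_of_nonneg_left _ hcoef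
  have hconj : (2 / p).HolderConjugate (2 / (2 - p)) := by
    rw [Real.holderConjugate_iff]
    constructor
    · rw [lt_div_iff₀ hp0]; linarith
    · rw [inv_div, inv_div]; field_simp; ring
  have h5 := Real.inner_le_Lp_mul_Lq E (fun e => (c e * z e ^ 2) ^ (p / 2))
    (fun e => (s e ^ (q - 2)) ^ (p / 2)) hconj
  refine h5.trans (le_of_eq ?_)
  have e3 : ∑ i ∈ E, |(c i * z i ^ 2) ^ (p / 2)| ^ (2 / p) = ∑ e ∈ E, c e * z e ^ 2 := by
    apply Finset.sum_congr rfl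
    intro e _
    have h0 : 0 ≤ c e * z e ^ 2 := mul_nonneg (hc0 e) (sq_nonneg _)
    rw [abs_of_nonneg (Real.rpow_nonneg h0 _), ← Real.rpow_mul h0]
    rw [show p / 2 * (2 / p) = 1 by field_simp, Real.rpow_one]
  have e4 : ∑ i ∈ E, |(s i ^ (q - 2)) ^ (p / 2)| ^ (2 / (2 - p)) = ∑ e ∈ E, s e ^ q := by
    apply Finset.sum_congr rfl
    intro e _
    rw [abs_of_nonneg (Real.rpow_nonneg (Real.rpow_nonneg (hs0 e) _) _),
      ← Real.rpow_mul (Real.rpow_nonneg (hs0 e) _), ← Real.rpow_mul (hs0 e)]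
    congr 1
    have h2p : 2 - p ≠ 0 := by linarith
    have h6 : 2 - p = (q - 2) / (q - 1) := by rw [hpe]; field_simp; ring
    have hq2 : q - 2 ≠ 0 := by linarith
    have hq1' : q - 1 ≠ 0 := hq1.ne'
    rw [h6, hpe]
    field_simp
  rw [e3, e4]
  congr 2
  · rw [one_div, inv_div]
  · rw [one_div, inv_div]; ring

end graph

end CarpetPI.Gr
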