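import Pool.Agent.Lib.MP_1d263a_an.GR.Edge

/-!
# Carpet project: the linear network of the difference of two `q`-harmonic functions

No carpet in this file: `E : Finset ι` is the set of edges of a graph, `l r : ι → V` are the ends.
-/

noncomputable section

namespace CarpetPI.Gr

/-! ### the conductance -/

/-- the constant in the lower bounds -/
def cL (q : ℝ) : ℝ := (1 / 2 : ℝ) ^ (q - 1)

theorem cL_pos (q : ℝ) : 0 < cL q := Real.rpow_pos_of_pos (by norm_num) _

theorem cL_le_one {q : ℝ} (hq : 1 ≤ q) : cL q ≤ 1 :=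
  Real.rpow_le_one (by norm_num) (by norm_num) (by linarith)

/-- the conductance: `cst q a b * (a - b) = phi q a - phi q b` -/
def cst (q a b : ℝ) : ℝ := if a = b then (|a| + |b|) ^ (q - 2) else (phi q a - phi q b) / (a - b)

theorem cst_mul (q a b : ℝ) : cst q a b * (a - b) = phi q a - phi q b := by
  unfold cst
  split_ifs with h
  · rw [h]; ring
  · have : a - b ≠ 0 := sub_ne_zero.2 h
    field_simp

theorem cst_bounds {q : ℝ} (hq : 2 ≤ q) (a b : ℝ) :
    cL q * (|a| + |b|) ^ (q - 2) ≤ cst q a b ∧ cst q a b ≤ (q - 1) * (|a| + |b|) ^ (q - 2) := by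
  have hM : 0 ≤ (|a| + |b|) ^ (q - 2) := by positivity
  unfold cst
  split_ifs with h
  · have h1 := cL_le_one (q := q) (by linarith)
    constructor <;> nlinarith
  · rcases lt_or_gt_of_ne h with h1 | h1
    · have h2 : 0 < b - a := by linarith
      have hl := phi_sub_lower (q := q) hq h1.le
      have hu := phi_sub_upper (q := q) hq h1.le
      have e : (phi q a - phi q b) / (a - b) = (phi q b - phi q a) / (b - a) := by
        rw [← neg_div_neg_eq]; congr 1 <;> ring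
      rw [e, le_div_iff₀ h2, div_le_iff₀ h2, add_comm |a| |b|]
      exact ⟨hl, hu⟩
    · have h2 : 0 < a - b := by linarith
      have hl := phi_sub_lower (q := q) hq h1.le
      have hu := phi_sub_upper (q := q) hq h1.le
      rw [le_div_iff₀ h2, div_le_iff₀ h2]
      exact ⟨hl, hu⟩

theorem cst_nonneg {q : ℝ} (hq : 2 ≤ q) (a b : ℝ) : 0 ≤ cst q a b :=
  le_trans (mul_nonneg (cL_pos q).le (by positivity)) (cst_bounds hq a b).1

theorem cst_pos {q : ℝ} (hq : 2 ≤ q) {a b : ℝ} (h : a ≠ b) : 0 < cst q a b := by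
  have h0 : 0 < |a| + |b| := by
    rcases eq_or_ne a 0 with ha | ha
    · have hb : b ≠ 0 := fun hb => h (by rw [ha, hb])
      have := abs_pos.2 hb
      have := abs_nonneg a
      linarith
    · have := abs_pos.2 ha
      have := abs_nonneg b
      linarith
  exact lt_of_lt_of_le (mul_pos (cL_pos q) (Real.rpow_pos_of_pos h0 _)) (cst_bounds hq a b).1

theorem cst_neg (q a b : ℝ) : cst q (-a) (-b) = cst q a b := by
  unfold cst
  rw [abs_neg, abs_neg]
  by_cases h : a = b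
  · rw [if_pos h, if_pos (by rw [h])]
  · rw [if_neg h, if_neg (fun hh => h (neg_injective hh)), phi_neg, phi_neg, ← neg_div_neg_eq]
    congr 1 <;> ring

/-! ### scalar inequalities -/

theorem log_sq' {x y : ℝ} (hx : 0 < x) (hxy : x ≤ y) :
    (Real.log y - Real.log x) ^ 2 ≤ (y - x) ^ 2 / (x * y) := by
  have hy : 0 < y := hx.trans_le hxy
  rw [← Real.log_div hy.ne' hx.ne']
  set t := Real.sqrt (y / x) with ht
  have hyx : 0 < y / x := by positivity
  have ht0 : 0 < t := Real.sqrt_pos.2 hyx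
  have ht2 : t ^ 2 = y / x := Real.sq_sqrt hyx.le
  have ht1 : 1 ≤ t := by
    rw [ht, Real.one_le_sqrt, one_le_div hx]; exact hxy
  have h1 : Real.log t ≤ Real.sinh (Real.log t) := Real.self_le_sinh_iff.2 (Real.log_nonneg ht1)
  rw [Real.sinh_log ht0] at h1
  have h2 : Real.log (y / x) = 2 * Real.log t := by
    rw [← ht2, Real.log_pow]; norm_num
  have h3 : 0 ≤ Real.log t := Real.log_nonneg ht1
  have h4 : (Real.log (y / x)) ^ 2 ≤ (t - t⁻¹) ^ 2 := by
    rw [h2]
    apply pow_le_pow_left₀ (by linarith)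
    linarith
  have h5 : (t - t⁻¹) ^ 2 = (y - x) ^ 2 / (x * y) := by
    have e : (t - t⁻¹) ^ 2 = (t ^ 2 - 1) ^ 2 / t ^ 2 := by field_simp
    rw [e, ht2]
    field_simp
  exact h4.trans h5.le

/-- the edge inequality of the logarithmic Caccioppoli inequality, ordered case, with the test
function `η² (1 / g - m)`, `m ≤ 1 / a` -/
theorem log_edge_aux {a b x y m : ℝ} (hb : 0 < b) (hab : b ≤ a) (hm : 0 ≤ m) (hma : m * a ≤ 1)
    (hx : 0 ≤ x) (hy : 0 ≤ y) :
    (a - b) * (x ^ 2 * (1 / a - m) - y ^ 2 * (1 / b - m)) ≤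
      3 * (x - y) ^ 2 - 1 / 2 * (min x y ^ 2 * (Real.log a - Real.log b) ^ 2) := by
  have ha : 0 < a := hb.trans_le hab
  have hlog := log_sq' hb hab
  set Q := (a - b) ^ 2 / (b * a) with hQ
  set L := (Real.log a - Real.log b) ^ 2 with hL
  have hQ0 : 0 ≤ Q := by positivity
  have hL0 : 0 ≤ L := sq_nonneg _
  -- the factor `1 - b / a`
  set k := (a - b) / a with hk
  have hk0 : 0 ≤ k := div_nonneg (by linarith) ha.le
  have hk1 : k ≤ 1 := by rw [hk, div_le_one ha]; linarith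
  have hkQ : k ^ 2 ≤ Q := by
    rw [hk, hQ, div_pow]
    have : b * a ≤ a ^ 2 := by nlinarith
    exact div_le_div_of_nonneg_left (sq_nonneg _) (by positivity) this
  have e1 : (a - b) * (x ^ 2 * (1 / a) - y ^ 2 * (1 / b)) = (x ^ 2 - y ^ 2) * k - y ^ 2 * Q := by
    rw [hk, hQ]; field_simp; ring
  have e2 : (a - b) * (x ^ 2 * (1 / a) - y ^ 2 * (1 / b)) = (x ^ 2 - y ^ 2) * ((a - b) / b) - x ^ 2 * Q := by
    rw [hQ]; field_simp; ring
  have e3 : (a - b) * (x ^ 2 * (1 / a - m) - y ^ 2 * (1 / b - m)) =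
      (a - b) * (x ^ 2 * (1 / a) - y ^ 2 * (1 / b)) - m * (a - b) * (x ^ 2 - y ^ 2) := by ring
  rw [e3]
  have hmk : m * (a - b) ≤ k := by
    rw [hk, le_div_iff₀ ha]
    nlinarith
  have hmk0 : 0 ≤ m * (a - b) := mul_nonneg hm (by linarith)
  rcases le_total y x with h | h
  · rw [min_eq_right h, e1]
    have h1 : 0 ≤ m * (a - b) * (x ^ 2 - y ^ 2) := mul_nonneg hmk0 (by nlinarith)
    have h2 : (x ^ 2 - y ^ 2) * k ≤ (x - y) ^ 2 + 2 * y * (x - y) * k := by
      have h6 : (x - y) ^ 2 * k ≤ (x - y) ^ 2 * 1 := by gcongr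
      have h7 : (x ^ 2 - y ^ 2) * k = (x - y) ^ 2 * k + 2 * y * (x - y) * k := by ring
      linarith
    have h3 : 2 * y * (x - y) * k ≤ 1 / 2 * (y ^ 2 * k ^ 2) + 2 * (x - y) ^ 2 := by
      have h6 := sq_nonneg (y * k - 2 * (x - y))
      have h7 : (y * k - 2 * (x - y)) ^ 2 =
        y ^ 2 * k ^ 2 + 4 * (x - y) ^ 2 - 2 * (2 * y * (x - y) * k) := by ring
      linarith
    have h4 : y ^ 2 * k ^ 2 ≤ y ^ 2 * Q := by gcongr
    have h5 : y ^ 2 * L ≤ y ^ 2 * Q := by gcongr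
    linarith
  · rw [min_eq_left h, e2]
    have h1 : (x ^ 2 - y ^ 2) * ((a - b) / b) ≤ 0 :=
      mul_nonpos_of_nonpos_of_nonneg (by nlinarith) (div_nonneg (by linarith) hb.le)
    have h0 : m * (a - b) * (y ^ 2 - x ^ 2) ≤ k * (y ^ 2 - x ^ 2) := by
      apply mul_le_mul_of_nonneg_right hmk; nlinarith
    have h2 : (y ^ 2 - x ^ 2) * k ≤ (x - y) ^ 2 + 2 * x * (y - x) * k := by
      have h6 : (y - x) ^ 2 * k ≤ (y - x) ^ 2 * 1 := by gcongr
      have h7 : (y ^ 2 - x ^ 2) * k = (y - x) ^ 2 * k + 2 * x * (y - x) * k := by ring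
      have h8 : (x - y) ^ 2 = (y - x) ^ 2 := by ring
      linarith
    have h3 : 2 * x * (y - x) * k ≤ 1 / 2 * (x ^ 2 * k ^ 2) + 2 * (x - y) ^ 2 := by
      have h6 := sq_nonneg (x * k - 2 * (y - x))
      have h7 : (x * k - 2 * (y - x)) ^ 2 =
        x ^ 2 * k ^ 2 + 4 * (x - y) ^ 2 - 2 * (2 * x * (y - x) * k) := by ring
      linarith
    have h4 : x ^ 2 * k ^ 2 ≤ x ^ 2 * Q := by gcongr
    have h5 : x ^ 2 * L ≤ x ^ 2 * Q := by gcongr
    linarith

/-- the edge inequality with the test function `η² (1 / g - m)` -/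
theorem log_edge {a b x y m : ℝ} (ha : 0 < a) (hb : 0 < b) (hm : 0 ≤ m) (hma : m * a ≤ 1)
    (hmb : m * b ≤ 1) (hx : 0 ≤ x) (hy : 0 ≤ y) :
    (a - b) * (x ^ 2 * (1 / a - m) - y ^ 2 * (1 / b - m)) ≤
      3 * (x - y) ^ 2 - 1 / 2 * (min x y ^ 2 * (Real.log a - Real.log b) ^ 2) := by
  rcases le_total b a with h | h
  · exact log_edge_aux hb h hm hma hx hy
  · have := log_edge_aux ha h hm hmb hy hx
    rw [min_comm y x] at this
    have e1 : (a - b) * (x ^ 2 * (1 / a - m) - y ^ 2 * (1 / b - m)) =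
      (b - a) * (y ^ 2 * (1 / b - m) - x ^ 2 * (1 / a - m)) := by ring
    have e2 : (x - y) ^ 2 = (y - x) ^ 2 := by ring
    have e3 : (Real.log a - Real.log b) ^ 2 = (Real.log b - Real.log a) ^ 2 := by ring
    rw [e1, e2, e3]
    exact this

/-- the edge inequality at an edge with an end where `g = M`: no cost -/
theorem log_edge_M {a x y M : ℝ} (ha : 0 < a) (haM : a ≤ M) (hx : 0 ≤ x) (hy : 0 ≤ y) :
    (a - M) * (x ^ 2 * (1 / a - 1 / M) - y ^ 2 * (1 / M - 1 / M)) ≤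
      - (min x y ^ 2 * (Real.log a - Real.log M) ^ 2) := by
  have hM : 0 < M := ha.trans_le haM
  have hlog := log_sq' ha haM
  have e : (a - M) * (x ^ 2 * (1 / a - 1 / M) - y ^ 2 * (1 / M - 1 / M)) =
      - (x ^ 2 * ((M - a) ^ 2 / (a * M))) := by
    field_simp; ring
  rw [e, show (Real.log a - Real.log M) ^ 2 = (Real.log M - Real.log a) ^ 2 by ring]
  have h1 : min x y ^ 2 ≤ x ^ 2 := by
    have := min_le_left x y
    have := le_min hx hy
    gcongr
  have h2 : 0 ≤ (M - a) ^ 2 / (a * M) := by positivity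
  have h3 := mul_le_mul h1 hlog (sq_nonneg _) (sq_nonneg _)
  linarith

/-- the edge inequality of the linear Caccioppoli inequality -/
theorem lin_edge {a b x y : ℝ} (hx : 0 ≤ x) (hy : 0 ≤ y) :
    1 / 2 * (min x y ^ 2 * (a - b) ^ 2) - 4 * (max |a| |b| ^ 2 * (x - y) ^ 2) ≤
      (a - b) * (a * x ^ 2 - b * y ^ 2) := by
  have main : ∀ a b x y : ℝ, 0 ≤ x → x ≤ y →
      1 / 2 * (min x y ^ 2 * (a - b) ^ 2) - 4 * (max |a| |b| ^ 2 * (x - y) ^ 2) ≤
      (a - b) * (a * x ^ 2 - b * y ^ 2) := by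
    intro a b x y hx hxy
    rw [min_eq_left hxy]
    set m := max |a| |b| with hm
    have hma : |a| ≤ m := le_max_left _ _
    have hmb : |b| ≤ m := le_max_right _ _
    have hm0 : 0 ≤ m := (abs_nonneg a).trans hma
    have e : (a - b) * (a * x ^ 2 - b * y ^ 2) =
        x ^ 2 * (a - b) ^ 2 - 2 * (x * (a - b)) * (b * (y - x)) - (a - b) * b * (y - x) ^ 2 := by ring
    have h1 : 2 * (x * (a - b)) * (b * (y - x)) ≤
        1 / 2 * (x ^ 2 * (a - b) ^ 2) + 2 * (m ^ 2 * (y - x) ^ 2) := by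
      have h2 : 2 * (x * (a - b)) * (b * (y - x)) ≤
          1 / 2 * (x ^ 2 * (a - b) ^ 2) + 2 * (b ^ 2 * (y - x) ^ 2) := by
        nlinarith [sq_nonneg (x * (a - b) - 2 * (b * (y - x)))]
      have h3 : b ^ 2 ≤ m ^ 2 := by
        rw [← sq_abs b]; gcongr
      have h4 : b ^ 2 * (y - x) ^ 2 ≤ m ^ 2 * (y - x) ^ 2 := by gcongr
      linarith
    have h5 : (a - b) * b ≤ 2 * m ^ 2 := by
      have h6 : |(a - b) * b| ≤ 2 * m * m := by
        rw [abs_mul]
        have : |a - b| ≤ 2 * m := by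
          calc |a - b| ≤ |a| + |b| := abs_sub a b
            _ ≤ 2 * m := by linarith
        exact mul_le_mul this hmb (abs_nonneg _) (by linarith)
      have := le_abs_self ((a - b) * b)
      nlinarith
    have h7 : (a - b) * b * (y - x) ^ 2 ≤ 2 * m ^ 2 * (y - x) ^ 2 := by gcongr
    rw [e]
    have h8 : (x - y) ^ 2 = (y - x) ^ 2 := by ring
    rw [h8]
    linarith
  rcases le_total x y with h | h
  · exact main a b x y hx h
  · have := main b a y x hy h
    rw [min_comm y x, max_comm |b| |a|] at this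
    nlinarith [this]

/-- the same at an edge with an end where the function vanishes: no cost -/
theorem lin_edge_zero {a x y : ℝ} (hx : 0 ≤ x) (hy : 0 ≤ y) :
    1 / 2 * (min x y ^ 2 * (a - 0) ^ 2) ≤ (a - 0) * (a * x ^ 2 - 0 * y ^ 2) := by
  have h1 : min x y ^ 2 ≤ x ^ 2 := by
    have := min_le_left x y
    have := le_min hx hy
    gcongr
  have h2 : min x y ^ 2 * a ^ 2 ≤ x ^ 2 * a ^ 2 := by gcongr
  have h3 : 0 ≤ min x y ^ 2 * a ^ 2 := by positivity
  have e : (a - 0) * (a * x ^ 2 - 0 * y ^ 2) = x ^ 2 * a ^ 2 := by ring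
  rw [e, sub_zero]
  linarith

/-! ### the graph -/

section graph

variable {ι V : Type*}

/-- `f` does not jump across the edges in `Z` (in the application: `V` are the faces, `Z` the absent
edges, so `f` is constant on the holes) -/
def Nj (Z : Set ι) (l r : ι → V) (f : V → ℝ) : Prop := ∀ e ∈ Z, f (l e) = f (r e)

/-- `w` solves the nonlinear equation at the vertices in `U`; test functions do not jump across the
edges in `Z` -/
def Har (q : ℝ) (E : Finset ι) (Z : Set ι) (l r : ι → V) (w : V → ℝ) (U : Set V) : Prop :=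
  ∀ ϕ : V → ℝ, (∀ x, x ∉ U → ϕ x = 0) → Nj Z l r ϕ →
    ∑ e ∈ E, phi q (w (l e) - w (r e)) * (ϕ (l e) - ϕ (r e)) = 0

/-- `ψ` solves the linear equation with conductances `c` at the vertices in `U` -/
def LHar (E : Finset ι) (Z : Set ι) (l r : ι → V) (c : ι → ℝ) (ψ : V → ℝ) (U : Set V) : Prop :=
  ∀ ϕ : V → ℝ, (∀ x, x ∉ U → ϕ x = 0) → Nj Z l r ϕ →
    ∑ e ∈ E, c e * (ψ (l e) - ψ (r e)) * (ϕ (l e) - ϕ (r e)) = 0

theorem Nj.comp {Z : Set ι} {l r : ι → V} {f : V → ℝ} (h : Nj Z l r f) (F : ℝ → ℝ) :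
    Nj Z l r (fun x => F (f x)) := fun e he => by simp only [h e he]

theorem Nj.comp₂ {Z : Set ι} {l r : ι → V} {f g : V → ℝ} (h : Nj Z l r f) (h' : Nj Z l r g)
    (F : ℝ → ℝ → ℝ) : Nj Z l r (fun x => F (f x) (g x)) := fun e he => by
  simp only [h e he, h' e he]

/-- the conductances of `w - t w'` -/
def cw (q t : ℝ) (l r : ι → V) (w w' : V → ℝ) (e : ι) : ℝ :=
  cst q (w (l e) - w (r e)) (t * (w' (l e) - w' (r e)))

/-- the size of the edge: `|dw| + t |dw'|` -/
def sz (t : ℝ) (l r : ι → V) (w w' : V → ℝ) (e : ι) : ℝ :=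
  |w (l e) - w (r e)| + t * |w' (l e) - w' (r e)|

theorem sz_nonneg {t : ℝ} (ht : 0 ≤ t) (l r : ι → V) (w w' : V → ℝ) (e : ι) :
    0 ≤ sz t l r w w' e := by unfold sz; positivity

theorem cw_bounds {q t : ℝ} (hq : 2 ≤ q) (ht : 0 ≤ t) (l r : ι → V) (w w' : V → ℝ) (e : ι) :
    cL q * sz t l r w w' e ^ (q - 2) ≤ cw q t l r w w' e ∧
      cw q t l r w w' e ≤ (q - 1) * sz t l r w w' e ^ (q - 2) := by
  have := cst_bounds hq (w (l e) - w (r e)) (t * (w' (l e) - w' (r e)))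
  rw [abs_mul, abs_of_nonneg ht] at this
  exact this

theorem cw_nonneg {q : ℝ} (hq : 2 ≤ q) (t : ℝ) (l r : ι → V) (w w' : V → ℝ) (e : ι) :
    0 ≤ cw q t l r w w' e := cst_nonneg hq _ _

/-- the conductance is positive where `w - t w'` is not constant -/
theorem cw_pos {q : ℝ} (hq : 2 ≤ q) (t : ℝ) (l r : ι → V) (w w' : V → ℝ) (e : ι)
    (h : w (l e) - t * w' (l e) ≠ w (r e) - t * w' (r e)) : 0 < cw q t l r w w' e := by
  apply cst_pos hq
  intro hh
  apply h
  linarith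

/-- **the linear equation** -/
theorem lhar {q t : ℝ} (hq : 1 < q) (ht : 0 ≤ t) {E : Finset ι} {Z : Set ι} {l r : ι → V}
    {w w' : V → ℝ} {U : Set V} (h : Har q E Z l r w U) (h' : Har q E Z l r w' U) :
    LHar E Z l r (cw q t l r w w') (fun x => w x - t * w' x) U := by
  intro ϕ hϕ hϕZ
  have h1 := h ϕ hϕ hϕZ
  have h2 := h' ϕ hϕ hϕZ
  have e : ∑ e ∈ E, cw q t l r w w' e * ((w (l e) - t * w' (l e)) - (w (r e) - t * w' (r e))) *
      (ϕ (l e) - ϕ (r e)) =
      ∑ e ∈ E, phi q (w (l e) - w (r e)) * (ϕ (l e) - ϕ (r e)) -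
        t ^ (q - 1) * ∑ e ∈ E, phi q (w' (l e) - w' (r e)) * (ϕ (l e) - ϕ (r e)) := by
    rw [Finset.mul_sum, ← Finset.sum_sub_distrib]
    apply Finset.sum_congr rfl
    intro e _
    have e1 := cst_mul q (w (l e) - w (r e)) (t * (w' (l e) - w' (r e)))
    rw [phi_smul hq ht] at e1
    unfold cw
    rw [show (w (l e) - t * w' (l e)) - (w (r e) - t * w' (r e)) =
      (w (l e) - w (r e)) - t * (w' (l e) - w' (r e)) by ring, e1]
    ring
  rw [e, h1, h2]
  ring

theorem LHar.neg {E : Finset ι} {Z : Set ι} {l r : ι → V} {c : ι → ℝ} {ψ : V → ℝ} {U : Set V}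
    (h : LHar E Z l r c ψ U) : LHar E Z l r c (fun x => - ψ x) U := by
  intro ϕ hϕ hϕZ
  have h1 := h ϕ hϕ hϕZ
  rw [← neg_eq_zero, ← Finset.sum_neg_distrib, ← h1]
  apply Finset.sum_congr rfl
  intro e _
  ring

theorem LHar.add_const {E : Finset ι} {Z : Set ι} {l r : ι → V} {c : ι → ℝ} {ψ : V → ℝ} {U : Set V}
    (h : LHar E Z l r c ψ U) (k : ℝ) : LHar E Z l r c (fun x => ψ x + k) U := by
  intro ϕ hϕ hϕZ
  have h1 := h ϕ hϕ hϕZ
  rw [← h1]
  apply Finset.sum_congr rfl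
  intro e _
  ring

/-- **Linear Caccioppoli inequality.** `ψ` may vanish outside `U`, e.g. at the hole; edges with an
end where `ψ = 0` do not occur on the right side. -/
theorem lin_cacc (E : Finset ι) (Z : Set ι) (l r : ι → V) (c : ι → ℝ) (ψ η : V → ℝ) (U : Set V)
    (hc : ∀ e ∈ E, 0 ≤ c e) (h : LHar E Z l r c ψ U) (hη : ∀ x, 0 ≤ η x)
    (hψZ : Nj Z l r ψ) (hηZ : Nj Z l r η) (hU : ∀ x, x ∉ U → ψ x = 0 ∨ η x = 0) :
    ∑ e ∈ E, c e * (min (η (l e)) (η (r e)) ^ 2 * (ψ (l e) - ψ (r e)) ^ 2) ≤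
      8 * ∑ e ∈ E.filter (fun e => ψ (l e) ≠ 0 ∧ ψ (r e) ≠ 0),
        c e * (max |ψ (l e)| |ψ (r e)| ^ 2 * (η (l e) - η (r e)) ^ 2) := by
  classical
  have h1 := h (fun x => ψ x * η x ^ 2) (fun x hx => by
    rcases hU x hx with h | h <;> simp [h]) (hψZ.comp₂ hηZ fun a b => a * b ^ 2)
  have h2 : ∑ e ∈ E, (1 / 2 * (c e * (min (η (l e)) (η (r e)) ^ 2 * (ψ (l e) - ψ (r e)) ^ 2)) -
      (if ψ (l e) ≠ 0 ∧ ψ (r e) ≠ 0 then
        4 * (c e * (max |ψ (l e)| |ψ (r e)| ^ 2 * (η (l e) - η (r e)) ^ 2)) else 0)) ≤ 0 := by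
    refine le_trans (Finset.sum_le_sum ?_) h1.le
    intro e he
    have hce := hc e he
    split_ifs with h0
    · have := lin_edge (a := ψ (l e)) (b := ψ (r e)) (hη (l e)) (hη (r e))
      have := mul_le_mul_of_nonneg_left this hce
      linarith
    · have key : 1 / 2 * (min (η (l e)) (η (r e)) ^ 2 * (ψ (l e) - ψ (r e)) ^ 2) ≤
          (ψ (l e) - ψ (r e)) * (ψ (l e) * η (l e) ^ 2 - ψ (r e) * η (r e) ^ 2) := by
        rw [not_and_or, not_not, not_not] at h0
        rcases h0 with h0 | h0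
        · have := lin_edge_zero (a := ψ (r e)) (hη (r e)) (hη (l e))
          rw [min_comm] at this
          rw [h0]
          nlinarith [this]
        · have := lin_edge_zero (a := ψ (l e)) (hη (l e)) (hη (r e))
          rw [h0]
          exact this
      have := mul_le_mul_of_nonneg_left key hce
      linarith
  rw [Finset.sum_sub_distrib, ← Finset.mul_sum, ← Finset.sum_filter, ← Finset.mul_sum] at h2
  linarith

/-- **Logarithmic Caccioppoli inequality** (`g` a positive supersolution). -/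
theorem log_cacc (E : Finset ι) (l r : ι → V) (c : ι → ℝ) (g η : V → ℝ)
    (hc : ∀ e ∈ E, 0 ≤ c e) (hg : ∀ e ∈ E, 0 < g (l e) ∧ 0 < g (r e)) (hη : ∀ x, 0 ≤ η x)
    (h : 0 ≤ ∑ e ∈ E, c e * (g (l e) - g (r e)) *
      (η (l e) ^ 2 * (1 / g (l e)) - η (r e) ^ 2 * (1 / g (r e)))) :
    ∑ e ∈ E, c e * (min (η (l e)) (η (r e)) ^ 2 * (Real.log (g (l e)) - Real.log (g (r e))) ^ 2) ≤
      6 * ∑ e ∈ E, c e * (η (l e) - η (r e)) ^ 2 := by
  have h2 : 0 ≤ ∑ e ∈ E, (3 * (c e * (η (l e) - η (r e)) ^ 2) -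
      1 / 2 * (c e * (min (η (l e)) (η (r e)) ^ 2 *
        (Real.log (g (l e)) - Real.log (g (r e))) ^ 2))) := by
    refine le_trans h (Finset.sum_le_sum ?_)
    intro e he
    obtain ⟨ha, hb⟩ := hg e he
    have := log_edge (a := g (l e)) (b := g (r e)) (m := 0) ha hb le_rfl (by simp) (by simp)
      (hη (l e)) (hη (r e))
    have := mul_le_mul_of_nonneg_left this (hc e he)
    simp only [sub_zero] at this
    linarith
  rw [Finset.sum_sub_distrib, ← Finset.mul_sum, ← Finset.mul_sum] at h2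
  linarith

/-- **Logarithmic Caccioppoli inequality with the test function `η² (1 / g - 1 / M)`**, `0 < g ≤ M`.
Edges with an end where `g = M` do not occur on the right side. -/
theorem log_cacc_M (E : Finset ι) (l r : ι → V) (c : ι → ℝ) (g η : V → ℝ) (M : ℝ)
    (hc : ∀ e ∈ E, 0 ≤ c e) (hg : ∀ e ∈ E, 0 < g (l e) ∧ 0 < g (r e) ∧ g (l e) ≤ M ∧ g (r e) ≤ M)
    (hη : ∀ x, 0 ≤ η x)
    (h : 0 ≤ ∑ e ∈ E, c e * (g (l e) - g (r e)) *
      (η (l e) ^ 2 * (1 / g (l e) - 1 / M) - η (r e) ^ 2 * (1 / g (r e) - 1 / M))) :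
    ∑ e ∈ E, c e * (min (η (l e)) (η (r e)) ^ 2 * (Real.log (g (l e)) - Real.log (g (r e))) ^ 2) ≤
      6 * ∑ e ∈ E.filter (fun e => g (l e) < M ∧ g (r e) < M), c e * (η (l e) - η (r e)) ^ 2 := by
  classical
  have h2 : 0 ≤ ∑ e ∈ E, ((if g (l e) < M ∧ g (r e) < M then
        3 * (c e * (η (l e) - η (r e)) ^ 2) else 0) -
      1 / 2 * (c e * (min (η (l e)) (η (r e)) ^ 2 *
        (Real.log (g (l e)) - Real.log (g (r e))) ^ 2))) := by
    refine le_trans h (Finset.sum_le_sum ?_)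
    intro e he
    obtain ⟨ha, hb, haM, hbM⟩ := hg e he
    have hM : 0 < M := ha.trans_le haM
    have hce := hc e he
    have hnn : 0 ≤ c e * (min (η (l e)) (η (r e)) ^ 2 *
        (Real.log (g (l e)) - Real.log (g (r e))) ^ 2) := by positivity
    split_ifs with h0
    · have := log_edge (a := g (l e)) (b := g (r e)) (m := 1 / M) ha hb (by positivity)
        (by rw [one_div, inv_mul_le_iff₀ hM]; linarith)
        (by rw [one_div, inv_mul_le_iff₀ hM]; linarith) (hη (l e)) (hη (r e))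
      have := mul_le_mul_of_nonneg_left this hce
      linarith
    · have key : (g (l e) - g (r e)) *
          (η (l e) ^ 2 * (1 / g (l e) - 1 / M) - η (r e) ^ 2 * (1 / g (r e) - 1 / M)) ≤
          - (min (η (l e)) (η (r e)) ^ 2 * (Real.log (g (l e)) - Real.log (g (r e))) ^ 2) := by
        rw [not_and_or, not_lt, not_lt] at h0
        rcases h0 with h0 | h0
        · have h3 : g (l e) = M := le_antisymm haM h0
          have := log_edge_M (a := g (r e)) (M := M) hb hbM (hη (r e)) (hη (l e))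
          rw [min_comm] at this
          rw [h3]
          nlinarith [this]
        · have h3 : g (r e) = M := le_antisymm hbM h0
          have := log_edge_M (a := g (l e)) (M := M) ha haM (hη (l e)) (hη (r e))
          rw [h3]
          exact this
      have := mul_le_mul_of_nonneg_left key hce
      linarith
  rw [Finset.sum_sub_distrib, ← Finset.sum_filter, ← Finset.mul_sum, ← Finset.mul_sum] at h2
  linarith

/-- a positive solution satisfies the hypothesis of `log_cacc` -/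
theorem LHar.log_test {E : Finset ι} {Z : Set ι} {l r : ι → V} {c : ι → ℝ} {g η : V → ℝ} {U : Set V}
    (h : LHar E Z l r c g U) (hgZ : Nj Z l r g) (hηZ : Nj Z l r η) (hU : ∀ x, x ∉ U → η x = 0) :
    0 ≤ ∑ e ∈ E, c e * (g (l e) - g (r e)) *
      (η (l e) ^ 2 * (1 / g (l e)) - η (r e) ^ 2 * (1 / g (r e))) :=
  (h (fun x => η x ^ 2 * (1 / g x)) (fun x hx => by simp [hU x hx])
    (hηZ.comp₂ hgZ fun a b => a ^ 2 * (1 / b))).ge

/-- `g = M - ψ⁺` satisfies the hypothesis of `log_cacc_M` -/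
theorem LHar.log_test_M {E : Finset ι} {Z : Set ι} {l r : ι → V} {c : ι → ℝ} {ψ η : V → ℝ}
    {U : Set V} {M : ℝ}
    (hc : ∀ e ∈ E, 0 ≤ c e) (hM : ∀ x, ψ x < M) (h0 : 0 < M)
    (h : LHar E Z l r c ψ U) (hψZ : Nj Z l r ψ) (hηZ : Nj Z l r η)
    (hU : ∀ x, x ∉ U → ψ x ≤ 0 ∨ η x = 0) :
    0 ≤ ∑ e ∈ E, c e * ((M - max (ψ (l e)) 0) - (M - max (ψ (r e)) 0)) *
      (η (l e) ^ 2 * (1 / (M - max (ψ (l e)) 0) - 1 / M) -
        η (r e) ^ 2 * (1 / (M - max (ψ (r e)) 0) - 1 / M)) := by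
  set ϕ : V → ℝ := fun x => η x ^ 2 * (1 / (M - max (ψ x) 0) - 1 / M) with hϕ
  have hϕ0 : ∀ x, ψ x ≤ 0 → ϕ x = 0 := by
    intro x hx
    simp [hϕ, max_eq_right hx]
  have hϕn : ∀ x, 0 ≤ ϕ x := by
    intro x
    apply mul_nonneg (sq_nonneg _)
    have h1 : 0 < M - max (ψ x) 0 := by
      have : max (ψ x) 0 < M := max_lt (hM x) h0
      linarith
    have h2 : M - max (ψ x) 0 ≤ M := by linarith [le_max_right (ψ x) 0]
    have := one_div_le_one_div_of_le h1 h2
    linarith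
  have h1 := h ϕ (fun x hx => by
    rcases hU x hx with h | h
    · exact hϕ0 x h
    · simp [hϕ, h]) (hηZ.comp₂ hψZ fun a b => a ^ 2 * (1 / (M - max b 0) - 1 / M))
  have h2 : ∑ e ∈ E, c e * (ψ (l e) - ψ (r e)) * (ϕ (l e) - ϕ (r e)) +
      ∑ e ∈ E, c e * ((M - max (ψ (l e)) 0) - (M - max (ψ (r e)) 0)) * (ϕ (l e) - ϕ (r e)) =
      ∑ e ∈ E, c e * ((min (ψ (l e)) 0 - min (ψ (r e)) 0) * (ϕ (l e) - ϕ (r e))) := by
    rw [← Finset.sum_add_distrib]
    apply Finset.sum_congr rfl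
    intro e _
    have e1 := min_add_max (ψ (l e)) 0
    have e2 := min_add_max (ψ (r e)) 0
    have e3 : ψ (l e) = min (ψ (l e)) 0 + max (ψ (l e)) 0 := by linarith
    have e4 : ψ (r e) = min (ψ (r e)) 0 + max (ψ (r e)) 0 := by linarith
    have e5 : (ψ (l e) - ψ (r e)) + ((M - max (ψ (l e)) 0) - (M - max (ψ (r e)) 0)) =
        min (ψ (l e)) 0 - min (ψ (r e)) 0 := by linarith
    rw [← e5]; ring
  have h3 : 0 ≤ ∑ e ∈ E, c e * ((min (ψ (l e)) 0 - min (ψ (r e)) 0) * (ϕ (l e) - ϕ (r e))) := by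
    apply Finset.sum_nonneg
    intro e he
    apply mul_nonneg (hc e he)
    rcases le_total (ψ (l e)) 0 with ha | ha <;> rcases le_total (ψ (r e)) 0 with hb | hb
    · rw [hϕ0 _ ha, hϕ0 _ hb]; simp
    · rw [hϕ0 _ ha, min_eq_left ha, min_eq_right hb]
      have := hϕn (r e)
      nlinarith
    · rw [hϕ0 _ hb, min_eq_right ha, min_eq_left hb]
      have := hϕn (l e)
      nlinarith
    · rw [min_eq_right ha, min_eq_right hb]; simp
  linarith

end graph

end CarpetPI.Gr
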