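import Pool.Agent.Lib.MP_1d263a_an.GR.Hol

/-!
# Carpet project: the bound for the oscillation of `log g`

This combines the logarithmic Caccioppoli inequality, (2a) and (2b). It is used for the Harnack inequality
and for the decay at the flat side.
-/

noncomputable section

namespace CarpetPI.Gr

section graph

variable {ι V : Type*}

/-- the constant -/
def cO (q : ℝ) : ℝ := 24 * (q - 1) / cL q

theorem cO_pos {q : ℝ} (hq : 2 < q) : 0 < cO q := by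
  unfold cO
  have := cL_pos q
  have : 0 < q - 1 := by linarith
  positivity

/-- the common part -/
theorem osc_aux {q t κ Λ Sg N : ℝ} (hq : 2 < q) (ht : 0 ≤ t) (hκ : 0 ≤ κ) (hΛ : 0 < Λ)
    (E E₁ F : Finset ι) (l r : ι → V) (w w' g η : V → ℝ) (χ : ι → ℝ) (h₁ : E₁ ⊆ E) (hF : F ⊆ E)
    (hη₁ : ∀ e ∈ E₁, 1 ≤ η (l e) ∧ 1 ≤ η (r e))
    (hlog : ∑ e ∈ E, cw q t l r w w' e * (min (η (l e)) (η (r e)) ^ 2 *
        (Real.log (g (l e)) - Real.log (g (r e))) ^ 2) ≤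
      6 * ∑ e ∈ F, cw q t l r w w' e * (η (l e) - η (r e)) ^ 2)
    (hχ : ∀ e ∈ E₁, |χ e| ≤ |w (l e) - w (r e)| ^ (q - 1) +
      t ^ (q - 1) * |w' (l e) - w' (r e)| ^ (q - 1))
    (hcr : κ ≤ ∑ e ∈ E₁, |χ e| * |(Real.log (g (l e)) - Real.log (g (r e))) / Λ|)
    (hS : ∑ e ∈ E, sz t l r w w' e ^ q ≤ Sg) (hN : ∑ e ∈ F, |η (l e) - η (r e)| ^ q ≤ N) :
    κ ^ 2 * Λ ^ 2 ≤ cO q * (Sg ^ (2 * (q - 1) / q) * N ^ (2 / q)) := by
  have hq0 : 0 < q := by linarith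
  have hs0 : ∀ e, 0 ≤ sz t l r w w' e := fun e => sz_nonneg ht l r w w' e
  have hc0 : ∀ e, 0 ≤ cw q t l r w w' e := fun e => cw_nonneg hq.le t l r w w' e
  have hcL := cL_pos q
  have hq1 : 0 < q - 1 := by linarith
  have hSE : 0 ≤ ∑ e ∈ E, sz t l r w w' e ^ q :=
    Finset.sum_nonneg fun e _ => Real.rpow_nonneg (hs0 e) _
  have hSg : 0 ≤ Sg := hSE.trans hS
  have hNF : 0 ≤ ∑ e ∈ F, |η (l e) - η (r e)| ^ q :=
    Finset.sum_nonneg fun e _ => Real.rpow_nonneg (abs_nonneg _) _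
  have hN0 : 0 ≤ N := hNF.trans hN
  -- lower bound
  have h1 := cw_lower hq ht hκ E₁ l r w w' χ
    (fun e => (Real.log (g (l e)) - Real.log (g (r e))) / Λ) hχ hcr
  have h2 : ∑ e ∈ E₁, sz t l r w w' e ^ q ≤ Sg :=
    (Finset.sum_le_sum_of_subset_of_nonneg h₁ fun e _ _ => Real.rpow_nonneg (hs0 e) _).trans hS
  -- the sum over `E₁`
  have h3 : (∑ e ∈ E₁, cw q t l r w w' e *
      ((Real.log (g (l e)) - Real.log (g (r e))) / Λ) ^ 2) * Λ ^ 2 ≤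
      ∑ e ∈ E, cw q t l r w w' e * (min (η (l e)) (η (r e)) ^ 2 *
        (Real.log (g (l e)) - Real.log (g (r e))) ^ 2) := by
    rw [Finset.sum_mul]
    refine le_trans (Finset.sum_le_sum (g := fun e => cw q t l r w w' e *
      (min (η (l e)) (η (r e)) ^ 2 * (Real.log (g (l e)) - Real.log (g (r e))) ^ 2)) ?_) ?_
    · intro e he
      obtain ⟨ha, hb⟩ := hη₁ e he
      have h4 : 1 ≤ min (η (l e)) (η (r e)) ^ 2 := by
        have := le_min ha hb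
        nlinarith
      have e1 : cw q t l r w w' e * ((Real.log (g (l e)) - Real.log (g (r e))) / Λ) ^ 2 * Λ ^ 2 =
          cw q t l r w w' e * (1 * (Real.log (g (l e)) - Real.log (g (r e))) ^ 2) := by
        field_simp
      rw [e1]
      apply mul_le_mul_of_nonneg_left _ (hc0 e)
      exact mul_le_mul_of_nonneg_right h4 (sq_nonneg _)
    · apply Finset.sum_le_sum_of_subset_of_nonneg h₁
      intro e _ _
      exact mul_nonneg (hc0 e) (mul_nonneg (sq_nonneg _) (sq_nonneg _))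
  -- upper bound
  have h5 := cw_upper hq ht F l r w w' (fun e => η (l e) - η (r e))
  have h6 : (∑ e ∈ F, sz t l r w w' e ^ q) ^ ((q - 2) / q) ≤ Sg ^ ((q - 2) / q) := by
    apply Real.rpow_le_rpow (Finset.sum_nonneg fun e _ => Real.rpow_nonneg (hs0 e) _) _
      (div_nonneg (by linarith) hq0.le)
    exact (Finset.sum_le_sum_of_subset_of_nonneg hF fun e _ _ => Real.rpow_nonneg (hs0 e) _).trans hS
  have h7 : (∑ e ∈ F, |η (l e) - η (r e)| ^ q) ^ (2 / q) ≤ N ^ (2 / q) :=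
    Real.rpow_le_rpow hNF hN (by positivity)
  have h8 : ∑ e ∈ F, cw q t l r w w' e * (η (l e) - η (r e)) ^ 2 ≤
      (q - 1) * (Sg ^ ((q - 2) / q) * N ^ (2 / q)) := by
    refine h5.trans ?_
    apply mul_le_mul_of_nonneg_left _ hq1.le
    exact mul_le_mul h6 h7 (Real.rpow_nonneg hNF _) (Real.rpow_nonneg hSg _)
  have h9 : (∑ e ∈ E₁, cw q t l r w w' e *
      ((Real.log (g (l e)) - Real.log (g (r e))) / Λ) ^ 2) * Λ ^ 2 ≤
      6 * ((q - 1) * (Sg ^ ((q - 2) / q) * N ^ (2 / q))) := by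
    refine h3.trans (hlog.trans ?_)
    linarith
  have hB0 : 0 ≤ ∑ e ∈ E₁, cw q t l r w w' e *
      ((Real.log (g (l e)) - Real.log (g (r e))) / Λ) ^ 2 :=
    Finset.sum_nonneg fun e _ => mul_nonneg (hc0 e) (sq_nonneg _)
  calc κ ^ 2 * Λ ^ 2 ≤ (4 / cL q * (∑ e ∈ E₁, cw q t l r w w' e *
        ((Real.log (g (l e)) - Real.log (g (r e))) / Λ) ^ 2) *
        ∑ e ∈ E₁, sz t l r w w' e ^ q) * Λ ^ 2 := by gcongr
    _ ≤ (4 / cL q * (∑ e ∈ E₁, cw q t l r w w' e *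
        ((Real.log (g (l e)) - Real.log (g (r e))) / Λ) ^ 2) * Sg) * Λ ^ 2 := by gcongr
    _ = 4 / cL q * ((∑ e ∈ E₁, cw q t l r w w' e *
        ((Real.log (g (l e)) - Real.log (g (r e))) / Λ) ^ 2) * Λ ^ 2) * Sg := by ring
    _ ≤ 4 / cL q * (6 * ((q - 1) * (Sg ^ ((q - 2) / q) * N ^ (2 / q)))) * Sg := by gcongr
    _ = cO q * ((Sg ^ ((q - 2) / q) * Sg) * N ^ (2 / q)) := by unfold cO; ring
    _ = _ := by
        congr 2
        rcases hSg.eq_or_lt with h0 | h0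
        · rw [← h0, mul_zero, Real.zero_rpow]
          have : 0 < 2 * (q - 1) / q := by positivity
          exact this.ne'
        · rw [← Real.rpow_add_one h0.ne']
          congr 1
          field_simp
          ring

/-- **oscillation of `log g`**, `g > 0` a solution (Harnack inequality): `E₁` are the edges on which
`η ≥ 1`, `Λ = log (max / min)`, `κ` comes from the crossing inequality. -/
theorem osc_log {q t κ Λ Sg N : ℝ} (hq : 2 < q) (ht : 0 ≤ t) (hκ : 0 ≤ κ) (hΛ : 0 < Λ)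
    (E E₁ : Finset ι) (l r : ι → V) (w w' g η : V → ℝ) (χ : ι → ℝ) (h₁ : E₁ ⊆ E)
    (hg : ∀ e ∈ E, 0 < g (l e) ∧ 0 < g (r e)) (hη : ∀ x, 0 ≤ η x)
    (hη₁ : ∀ e ∈ E₁, 1 ≤ η (l e) ∧ 1 ≤ η (r e))
    (h : 0 ≤ ∑ e ∈ E, cw q t l r w w' e * (g (l e) - g (r e)) *
      (η (l e) ^ 2 * (1 / g (l e)) - η (r e) ^ 2 * (1 / g (r e))))
    (hχ : ∀ e ∈ E₁, |χ e| ≤ |w (l e) - w (r e)| ^ (q - 1) +
      t ^ (q - 1) * |w' (l e) - w' (r e)| ^ (q - 1))
    (hcr : κ ≤ ∑ e ∈ E₁, |χ e| * |(Real.log (g (l e)) - Real.log (g (r e))) / Λ|)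
    (hS : ∑ e ∈ E, sz t l r w w' e ^ q ≤ Sg) (hN : ∑ e ∈ E, |η (l e) - η (r e)| ^ q ≤ N) :
    κ ^ 2 * Λ ^ 2 ≤ cO q * (Sg ^ (2 * (q - 1) / q) * N ^ (2 / q)) :=
  osc_aux hq ht hκ hΛ E E₁ E l r w w' g η χ h₁ (Finset.Subset.refl _) hη₁
    (log_cacc E l r (cw q t l r w w') g η (fun e _ => cw_nonneg hq.le t l r w w' e) hg hη h)
    hχ hcr hS hN

/-- **oscillation of `log g`**, `0 < g ≤ M`, test function `η² (1 / g - 1 / M)` (decay at the flat side):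
the edges with an end where `g = M` do not count for the energy of `η`. -/
theorem osc_log_M {q t κ Λ Sg N M : ℝ} (hq : 2 < q) (ht : 0 ≤ t) (hκ : 0 ≤ κ) (hΛ : 0 < Λ)
    (E E₁ : Finset ι) (l r : ι → V) (w w' g η : V → ℝ) (χ : ι → ℝ) (h₁ : E₁ ⊆ E)
    (hg : ∀ e ∈ E, 0 < g (l e) ∧ 0 < g (r e) ∧ g (l e) ≤ M ∧ g (r e) ≤ M) (hη : ∀ x, 0 ≤ η x)
    (hη₁ : ∀ e ∈ E₁, 1 ≤ η (l e) ∧ 1 ≤ η (r e))
    (h : 0 ≤ ∑ e ∈ E, cw q t l r w w' e * (g (l e) - g (r e)) *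
      (η (l e) ^ 2 * (1 / g (l e) - 1 / M) - η (r e) ^ 2 * (1 / g (r e) - 1 / M)))
    (hχ : ∀ e ∈ E₁, |χ e| ≤ |w (l e) - w (r e)| ^ (q - 1) +
      t ^ (q - 1) * |w' (l e) - w' (r e)| ^ (q - 1))
    (hcr : κ ≤ ∑ e ∈ E₁, |χ e| * |(Real.log (g (l e)) - Real.log (g (r e))) / Λ|)
    (hS : ∑ e ∈ E, sz t l r w w' e ^ q ≤ Sg)
    (hN : ∑ e ∈ E.filter (fun e => g (l e) < M ∧ g (r e) < M), |η (l e) - η (r e)| ^ q ≤ N) :
    κ ^ 2 * Λ ^ 2 ≤ cO q * (Sg ^ (2 * (q - 1) / q) * N ^ (2 / q)) := by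
  classical
  exact osc_aux hq ht hκ hΛ E E₁ (E.filter (fun e => g (l e) < M ∧ g (r e) < M)) l r w w' g η χ h₁
    (Finset.filter_subset _ _) hη₁
    (log_cacc_M E l r (cw q t l r w w') g η M (fun e _ => cw_nonneg hq.le t l r w w' e) hg hη h)
    hχ hcr hS hN

end graph

end CarpetPI.Gr
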