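import Pool.Agent.Lib.MP_1d263a_an.GR.Lin

/-!
# MP_1d263a_an, graph part: the inequalities with one given test function

(On the lattice only test functions which do not jump across absent edges are allowed.)
-/

open Finset
open scoped Classical

namespace CarpetPI.Gr

variable {ι V : Type*}

/-- Linear Caccioppoli inequality, one test function. -/
theorem lin_cacc_t (E : Finset ι) (l r : ι → V) (c : ι → ℝ) (ψ η : V → ℝ)
    (hc : ∀ e ∈ E, 0 ≤ c e) (hη : ∀ x, 0 ≤ η x)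
    (h : ∑ e ∈ E, c e * (ψ (l e) - ψ (r e)) * (ψ (l e) * η (l e) ^ 2 - ψ (r e) * η (r e) ^ 2) = 0) :
    ∑ e ∈ E, c e * (min (η (l e)) (η (r e)) ^ 2 * (ψ (l e) - ψ (r e)) ^ 2) ≤
      8 * ∑ e ∈ E.filter (fun e => ψ (l e) ≠ 0 ∧ ψ (r e) ≠ 0),
        c e * (max |ψ (l e)| |ψ (r e)| ^ 2 * (η (l e) - η (r e)) ^ 2) := by
  classical
  have h2 : ∑ e ∈ E, (1 / 2 * (c e * (min (η (l e)) (η (r e)) ^ 2 * (ψ (l e) - ψ (r e)) ^ 2)) -
      (if ψ (l e) ≠ 0 ∧ ψ (r e) ≠ 0 then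
        4 * (c e * (max |ψ (l e)| |ψ (r e)| ^ 2 * (η (l e) - η (r e)) ^ 2)) else 0)) ≤ 0 := by
    refine le_trans (Finset.sum_le_sum ?_) h.le
    intro e he
    have hce := hc e he
    split_ifs with h0
    · have := lin_edge (a := ψ (l e)) (b := ψ (r e)) (hη (l e)) (hη (r e))
      have := mul_le_mul_of_nonneg_left this hce
      linarith
    · have key : 1 / 2 * (min (η (l e)) (η (r e)) ^ 2 * (ψ (l e) - ψ (r e)) ^ 2) ≤
          (ψ (l e) - ψ (r e)) * (ψ (l e) * η (l e) ^ 2 - ψ (r e) * η (r e) ^ 2) := by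
        rw [not_and_or, not_not, not_not] at h0
        rcases h0 with h0 | h0
        · have := lin_edge_zero (a := ψ (r e)) (hη (r e)) (hη (l e))
          rw [min_comm] at this
          rw [h0]
          nlinarith [this]
        · have := lin_edge_zero (a := ψ (l e)) (hη (l e)) (hη (r e))
          rw [h0]
          exact this
      have := mul_le_mul_of_nonneg_left key hce
      linarith
  rw [Finset.sum_sub_distrib, ← Finset.mul_sum, ← Finset.sum_filter, ← Finset.mul_sum] at h2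
  linarith

/-- The hypothesis of `log_cacc_M` for `g = M - ψ⁺`, one test function; only the values at the ends
of the edges in `E` matter. -/
theorem log_test_M_t {E : Finset ι} {l r : ι → V} {c : ι → ℝ} {ψ η : V → ℝ} {M : ℝ}
    (hc : ∀ e ∈ E, 0 ≤ c e) (hM : ∀ e ∈ E, ψ (l e) < M ∧ ψ (r e) < M) (h0 : 0 < M)
    (h : ∑ e ∈ E, c e * (ψ (l e) - ψ (r e)) *
      (η (l e) ^ 2 * (1 / (M - max (ψ (l e)) 0) - 1 / M) -
        η (r e) ^ 2 * (1 / (M - max (ψ (r e)) 0) - 1 / M)) = 0) :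
    0 ≤ ∑ e ∈ E, c e * ((M - max (ψ (l e)) 0) - (M - max (ψ (r e)) 0)) *
      (η (l e) ^ 2 * (1 / (M - max (ψ (l e)) 0) - 1 / M) -
        η (r e) ^ 2 * (1 / (M - max (ψ (r e)) 0) - 1 / M)) := by
  set ϕ : V → ℝ := fun x => η x ^ 2 * (1 / (M - max (ψ x) 0) - 1 / M) with hϕ
  have hϕ0 : ∀ x, ψ x ≤ 0 → ϕ x = 0 := by
    intro x hx
    simp [hϕ, max_eq_right hx]
  have hϕn : ∀ x, ψ x < M → 0 ≤ ϕ x := by
    intro x hx
    apply mul_nonneg (sq_nonneg _)
    have h1 : 0 < M - max (ψ x) 0 := by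
      have : max (ψ x) 0 < M := max_lt hx h0
      linarith
    have h2 : M - max (ψ x) 0 ≤ M := by linarith [le_max_right (ψ x) 0]
    have := one_div_le_one_div_of_le h1 h2
    linarith
  have h1 : ∑ e ∈ E, c e * (ψ (l e) - ψ (r e)) * (ϕ (l e) - ϕ (r e)) = 0 := h
  have h2 : ∑ e ∈ E, c e * (ψ (l e) - ψ (r e)) * (ϕ (l e) - ϕ (r e)) +
      ∑ e ∈ E, c e * ((M - max (ψ (l e)) 0) - (M - max (ψ (r e)) 0)) * (ϕ (l e) - ϕ (r e)) =
      ∑ e ∈ E, c e * ((min (ψ (l e)) 0 - min (ψ (r e)) 0) * (ϕ (l e) - ϕ (r e))) := by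
    rw [← Finset.sum_add_distrib]
    apply Finset.sum_congr rfl
    intro e _
    have e1 := min_add_max (ψ (l e)) 0
    have e2 := min_add_max (ψ (r e)) 0
    have e5 : (ψ (l e) - ψ (r e)) + ((M - max (ψ (l e)) 0) - (M - max (ψ (r e)) 0)) =
        min (ψ (l e)) 0 - min (ψ (r e)) 0 := by linarith
    rw [← e5]; ring
  have h3 : 0 ≤ ∑ e ∈ E, c e * ((min (ψ (l e)) 0 - min (ψ (r e)) 0) * (ϕ (l e) - ϕ (r e))) := by
    apply Finset.sum_nonneg
    intro e he
    apply mul_nonneg (hc e he)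
    obtain ⟨hl, hr⟩ := hM e he
    rcases le_total (ψ (l e)) 0 with ha | ha <;> rcases le_total (ψ (r e)) 0 with hb | hb
    · rw [hϕ0 _ ha, hϕ0 _ hb]; simp
    · rw [hϕ0 _ ha, min_eq_left ha, min_eq_right hb]
      have := hϕn (r e) hr
      nlinarith
    · rw [hϕ0 _ hb, min_eq_right ha, min_eq_left hb]
      have := hϕn (l e) hl
      nlinarith
    · rw [min_eq_right ha, min_eq_right hb]; simp
  have h4 : 0 ≤ ∑ e ∈ E, c e * ((M - max (ψ (l e)) 0) - (M - max (ψ (r e)) 0)) *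
      (ϕ (l e) - ϕ (r e)) := by linarith
  exact h4

end CarpetPI.Gr
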